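import Pool.Agent.R645.BipRel

/-!
# MP_a65550_al (Q1 and Q2): nontrivial identities that hold in all `Bip(n)`

Q1. The lattice identity `a ∧ (x ∨ (b ∧ (c ∨ y))) ≤ y ∨ ((a ∨ c ∨ y) ∧ (c ∨ ((x ∨ y) ∧ (x ∨ b))))`
holds in `Bip(n)` for every `n`, and it fails in a certain lattice with 12 elements.

Q2. With `y = x ∨ (xᶜ ∧ (a ∨ x))`, the ortholattice identity `x ∨ (a ∧ y) = y` holds in `Bip(n)`
for every `n`, and it fails in a certain ortholattice with 12 elements.
-/

set_option autoImplicit false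

namespace Pool.Agent.R645.BipBoth

open Relation

/-- An ortholattice: a lattice with `0, 1` and an orthocomplementation. -/
class Ortholattice (K : Type*) extends Lattice K, BoundedOrder K, Compl K where
  compl_anti : ∀ x y : K, x ≤ y → yᶜ ≤ xᶜ
  compl_invol : ∀ x : K, xᶜᶜ = x
  inf_compl_eq : ∀ x : K, x ⊓ xᶜ = ⊥

/-- Ortholattice terms in the variables `var 0, var 1, …`. -/
inductive OTerm where
  | var (i : ℕ) : OTerm
  | zero : OTerm
  | one : OTerm
  | compl (s : OTerm) : OTerm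
  | sup (s t : OTerm) : OTerm
  | inf (s t : OTerm) : OTerm

/-- The value of a term in an ortholattice under an assignment of the variables. -/
def OTerm.eval {K : Type*} [Ortholattice K] (v : ℕ → K) : OTerm → K
  | .var i => v i
  | .zero => ⊥
  | .one => ⊤
  | .compl s => (s.eval v)ᶜ
  | .sup s t => s.eval v ⊔ t.eval v
  | .inf s t => s.eval v ⊓ t.eval v

/-- Lattice terms in the variables `var 0, var 1, …`. -/
inductive LTerm where
  | var (i : ℕ) : LTerm
  | sup (s t : LTerm) : LTerm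
  | inf (s t : LTerm) : LTerm

/-- The value of a lattice term in a lattice under an assignment of the variables. -/
def LTerm.eval {K : Type*} [Lattice K] (v : ℕ → K) : LTerm → K
  | .var i => v i
  | .sup s t => s.eval v ⊔ t.eval v
  | .inf s t => s.eval v ⊓ t.eval v

/-! ### The ortholattice `Bip(n)` -/

/-- a binary relation, seen as a set of pairs, is transitive -/
def IsTransitive {n : ℕ} (a : Set (Fin n × Fin n)) : Prop :=
  ∀ x y z, (x, y) ∈ a → (y, z) ∈ a → (x, z) ∈ a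

/-- the transitive closure of a binary relation -/
def tcl {n : ℕ} (a : Set (Fin n × Fin n)) : Set (Fin n × Fin n) :=
  {q | TransGen (fun x y => (x, y) ∈ a) q.1 q.2}

/-- The bipartitions of `[n]`: the relations `a` such that `a` and its complement are
transitive. -/
def Bip (n : ℕ) : Type := {a : Set (Fin n × Fin n) // IsTransitive a ∧ IsTransitive aᶜ}

/-- `Bip(n)` is ordered by inclusion. -/
instance (n : ℕ) : PartialOrder (Bip n) where
  le a b := a.1 ⊆ b.1
  le_refl a := Set.Subset.refl _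
  le_trans a b c h1 h2 := Set.Subset.trans h1 h2
  le_antisymm a b h1 h2 := Subtype.ext (Set.Subset.antisymm h1 h2)

theorem tcl_trans {n : ℕ} (a : Set (Fin n × Fin n)) : IsTransitive (tcl a) :=
  fun _ _ _ h1 h2 => TransGen.trans h1 h2

theorem subset_tcl {n : ℕ} (a : Set (Fin n × Fin n)) : a ⊆ tcl a :=
  fun _ h => TransGen.single h

theorem tcl_subset {n : ℕ} {a b : Set (Fin n × Fin n)} (h : a ⊆ b) (hb : IsTransitive b) :
    tcl a ⊆ b := by
  rintro ⟨x, y⟩ hxy
  change TransGen _ x y at hxy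
  induction hxy with
  | single h1 => exact h h1
  | tail _ h2 ih => exact hb _ _ _ ih (h h2)

/-- the complement of the transitive closure of the union of two bipartitions is transitive -/
theorem tcl_union_compl {n : ℕ} (a b : Bip n) : IsTransitive (tcl (a.1 ∪ b.1))ᶜ := by
  intro x y z hxy hyz hxz
  obtain ⟨u, hxu, huz⟩ := TransGen.head'_iff.mp (show TransGen _ x z from hxz)
  -- `(y, u)` belongs to the union
  have hyu : (y, u) ∈ a.1 ∪ b.1 := by
    by_contra hn
    rcases hxu with h | h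
    · have h1 : (x, y) ∈ (a.1)ᶜ := fun h' => hxy (subset_tcl _ (Or.inl h'))
      have h2 : (y, u) ∈ (a.1)ᶜ := fun h' => hn (Or.inl h')
      exact a.2.2 _ _ _ h1 h2 h
    · have h1 : (x, y) ∈ (b.1)ᶜ := fun h' => hxy (subset_tcl _ (Or.inr h'))
      have h2 : (y, u) ∈ (b.1)ᶜ := fun h' => hn (Or.inr h')
      exact b.2.2 _ _ _ h1 h2 h
  exact hyz (show TransGen _ y z from TransGen.head'_iff.mpr ⟨u, hyu, huz⟩)

/-- orthocomplement: complement of the relation -/
def Bip.comp {n : ℕ} (a : Bip n) : Bip n := ⟨(a.1)ᶜ, a.2.2, by rw [compl_compl]; exact a.2.1⟩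

/-- join: transitive closure of the union -/
def Bip.join {n : ℕ} (a b : Bip n) : Bip n :=
  ⟨tcl (a.1 ∪ b.1), tcl_trans _, tcl_union_compl a b⟩

/-- `Bip(n)` with inclusion, join `cl(a ∪ b)`, and orthocomplement `a ↦ [n] × [n] \ a`, is an
ortholattice. -/
instance (n : ℕ) : Ortholattice (Bip n) where
  sup := Bip.join
  le_sup_left a b := fun _ h => subset_tcl _ (Or.inl h)
  le_sup_right a b := fun _ h => subset_tcl _ (Or.inr h)
  sup_le a b c h1 h2 := tcl_subset (Set.union_subset h1 h2) c.2.1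
  inf a b := (Bip.join a.comp b.comp).comp
  inf_le_left a b := fun _ h => by
    by_contra h'
    exact h (subset_tcl _ (Or.inl h'))
  inf_le_right a b := fun _ h => by
    by_contra h'
    exact h (subset_tcl _ (Or.inr h'))
  le_inf a b c h1 h2 := fun x hx h' => by
    have h3 : tcl (b.comp.1 ∪ c.comp.1) ⊆ (a.1)ᶜ := by
      apply tcl_subset _ a.2.2
      rintro y (hy | hy)
      · exact fun h4 => hy (h1 h4)
      · exact fun h4 => hy (h2 h4)
    exact h3 h' hx
  top := ⟨Set.univ, fun _ _ _ _ _ => trivial, fun _ _ _ h _ => absurd trivial h⟩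
  le_top a := Set.subset_univ _
  bot := ⟨∅, fun _ _ _ h _ => h.elim, fun _ _ _ _ _ h => h.elim⟩
  bot_le a := Set.empty_subset _
  compl := Bip.comp
  compl_anti a b h := Set.compl_subset_compl.mpr h
  compl_invol a := Subtype.ext (compl_compl _)
  inf_compl_eq a := by
    apply Subtype.ext
    apply Set.eq_empty_of_forall_notMem
    intro q hq
    apply hq
    by_cases h : q ∈ a.1
    · exact subset_tcl _ (Or.inr (fun h' => h' h))
    · exact subset_tcl _ (Or.inl h)

/-! ### The combinatorial core -/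

section Core

variable {α : Type*}

/-- Two disjoint nonempty bipartitions: an entry missing from the join has an empty row or an
empty column. -/
theorem local_claim (X Z Y : α → α → Prop)
    (hXc : ∀ x y z, ¬ X x y → ¬ X y z → ¬ X x z)
    (hZc : ∀ x y z, ¬ Z x y → ¬ Z y z → ¬ Z x z)
    (hYt : ∀ x y z, Y x y → Y y z → Y x z)
    (hXY : ∀ x y, X x y → Y x y) (hZY : ∀ x y, Z x y → Y x y)
    (hd : ∀ x y, X x y → ¬ Z x y)
    (hXn : ∃ x y, X x y) (hZn : ∃ x y, Z x y)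
    (hin : ∀ x y, Y x y → ∃ i, X i y ∨ Z i y)
    (hout : ∀ x y, Y x y → ∃ i, X x i ∨ Z x i)
    (k j : α) (hkj : ¬ Y k j) : (∀ i, ¬ Y i j) ∨ (∀ l, ¬ Y k l) := by
  have key : ∀ (X Z : α → α → Prop)
      (_ : ∀ x y z, ¬ X x y → ¬ X y z → ¬ X x z)
      (_ : ∀ x y z, ¬ Z x y → ¬ Z y z → ¬ Z x z)
      (_ : ∀ x y, X x y → Y x y) (_ : ∀ x y, Z x y → Y x y)
      (_ : ∀ x y, X x y → ¬ Z x y) (_ : ∃ x y, Z x y) (i l : α),
      X i j → (X k l ∨ Z k l) → False := by
    intro X Z hXc hZc hXY hZY hd hZn i l hij hkl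
    have hkjX : ¬ X k j := fun h => hkj (hXY _ _ h)
    have hkjZ : ¬ Z k j := fun h => hkj (hZY _ _ h)
    rcases hkl with hkl | hkl
    · obtain ⟨s, t, hst⟩ := hZn
      by_cases h1 : Z k t
      · have h2 : ¬ Y t j := fun h => hkj (hYt _ _ _ (hZY _ _ h1) h)
        have h3 : X i t := by
          by_contra h
          exact hXc _ _ _ h (fun h' => h2 (hXY _ _ h')) hij
        have h4 : Z k i := by
          by_contra h
          exact hZc _ _ _ h (hd _ _ h3) h1
        exact hkj (hYt _ _ _ (hZY _ _ h4) (hXY _ _ hij))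
      · by_cases h2 : Z s j
        · have h3 : ¬ Y k s := fun h => hkj (hYt _ _ _ h (hZY _ _ h2))
          have h4 : X s l := by
            by_contra h
            exact hXc _ _ _ (fun h' => h3 (hXY _ _ h')) h hkl
          have h5 : Z l j := by
            by_contra h
            exact hZc _ _ _ (hd _ _ h4) h h2
          exact hkj (hYt _ _ _ (hXY _ _ hkl) (hZY _ _ h5))
        · have hsk : Z s k := by
            by_contra h
            exact hZc _ _ _ h h1 hst
          have hjk : Z j k := by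
            by_contra h
            exact hZc _ _ _ h2 h hsk
          have hik : X i k := by
            by_contra h
            exact hXc _ _ _ h hkjX hij
          have hjl : X j l := by
            by_contra h
            exact hXc _ _ _ hkjX h hkl
          have hji : Z j i := by
            by_contra h
            exact hZc _ _ _ h (hd _ _ hik) hjk
          have hli : Z l i := by
            by_contra h
            exact hZc _ _ _ (hd _ _ hjl) h hji
          exact hkj (hYt _ _ _ (hYt _ _ _ (hXY _ _ hkl) (hZY _ _ hli)) (hXY _ _ hij))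
    · have h1 : ¬ Z k i := fun h => hkj (hYt _ _ _ (hZY _ _ h) (hXY _ _ hij))
      have h2 : Z i l := by
        by_contra h
        exact hZc _ _ _ h1 h hkl
      have h3 : X l j := by
        by_contra h
        exact hXc _ _ _ (fun h' => hd _ _ h' h2) h hij
      exact hkj (hYt _ _ _ (hZY _ _ hkl) (hXY _ _ h3))
  by_contra hcon
  push Not at hcon
  obtain ⟨⟨i, hi⟩, ⟨l, hl⟩⟩ := hcon
  obtain ⟨i, hi⟩ := hin _ _ hi
  obtain ⟨l, hl⟩ := hout _ _ hl
  rcases hi with hi | hi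
  · exact key X Z hXc hZc hXY hZY hd hZn i l hi hl
  · exact key Z X hZc hXc hZY hXY (fun x y h h' => hd x y h' h) hXn i l hi hl.symm

/-- The join of two disjoint nonempty bipartitions has constant columns or constant rows. -/
theorem structure_claim (X Z Y : α → α → Prop)
    (hXc : ∀ x y z, ¬ X x y → ¬ X y z → ¬ X x z)
    (hZc : ∀ x y z, ¬ Z x y → ¬ Z y z → ¬ Z x z)
    (hYt : ∀ x y z, Y x y → Y y z → Y x z)
    (hXY : ∀ x y, X x y → Y x y) (hZY : ∀ x y, Z x y → Y x y)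
    (hd : ∀ x y, X x y → ¬ Z x y)
    (hXn : ∃ x y, X x y) (hZn : ∃ x y, Z x y)
    (hin : ∀ x y, Y x y → ∃ i, X i y ∨ Z i y)
    (hout : ∀ x y, Y x y → ∃ i, X x i ∨ Z x i) :
    (∀ i k j, Y i j → Y k j) ∨ (∀ i j l, Y i j → Y i l) := by
  by_contra hcon
  push Not at hcon
  obtain ⟨⟨i, k, j, hij, hkj⟩, ⟨p, q, r, hpq, hpr⟩⟩ := hcon
  have hk : ∀ l, ¬ Y k l := by
    rcases local_claim X Z Y hXc hZc hYt hXY hZY hd hXn hZn hin hout k j hkj with h | h
    · exact absurd hij (h i)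
    · exact h
  have hr : ∀ l, ¬ Y l r := by
    rcases local_claim X Z Y hXc hZc hYt hXY hZY hd hXn hZn hin hout p r hpr with h | h
    · exact h
    · exact absurd hpq (h q)
  have h1 : ∀ (X : α → α → Prop) (_ : ∀ x y z, ¬ X x y → ¬ X y z → ¬ X x z)
      (_ : ∀ x y, X x y → Y x y) (_ : ∃ x y, X x y), X r k := by
    intro X hXc hXY ⟨g, h, hgh⟩
    have h2 : X r h := by
      by_contra h'
      exact hXc _ _ _ (fun h'' => hr _ (hXY _ _ h'')) h' hgh
    by_contra h'
    exact hXc _ _ _ h' (fun h'' => hk _ (hXY _ _ h'')) h2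
  exact hd r k (h1 X hXc hXY hXn) (h1 Z hZc hZY hZn)

/-- The relation `T ≤ A ∧ Y` used in the main proof. -/
def T (A Y : α → α → Prop) (u v : α) : Prop :=
  A u v ∧ (∃ i, Y i v) ∧ ∀ e, (∀ i, ¬ Y i e) → A e v

theorem T_trans (A Y : α → α → Prop) (hAt : ∀ x y z, A x y → A y z → A x z) (x y z : α)
    (h1 : T A Y x y) (h2 : T A Y y z) : T A Y x z :=
  ⟨hAt _ _ _ h1.1 h2.1, h2.2.1, h2.2.2⟩

theorem T_cotrans (A Y : α → α → Prop) (hAc : ∀ x y z, ¬ A x y → ¬ A y z → ¬ A x z) (x y z : α)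
    (h1 : ¬ T A Y x y) (h2 : ¬ T A Y y z) : ¬ T A Y x z := by
  rintro ⟨h3, h4, h5⟩
  by_cases hyz : A y z
  · exact h2 ⟨hyz, h4, h5⟩
  · have hxy : A x y := by
      by_contra h
      exact hAc _ _ _ h hyz h3
    apply h1
    refine ⟨hxy, ?_, ?_⟩
    · by_contra h
      push Not at h
      exact hyz (h5 y h)
    · intro e he
      by_contra h
      exact hAc _ _ _ h hyz (h5 e he)

/-- The core of the proof, in the case where `Y` has constant columns. -/
theorem core (X A W Z Y : α → α → Prop)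
    (hXc : ∀ x y z, ¬ X x y → ¬ X y z → ¬ X x z)
    (hAc : ∀ x y z, ¬ A x y → ¬ A y z → ¬ A x z)
    (hWt : ∀ x y z, W x y → W y z → W x z)
    (hWc : ∀ x y z, ¬ W x y → ¬ W y z → ¬ W x z)
    (hW : ∀ x y, W x y → TransGen (fun u v => A u v ∨ X u v) x y)
    (hAW : ∀ x y, A x y → W x y)
    (hYW : ∀ x y, Y x y → W x y)
    (hXY : ∀ x y, X x y → Y x y) (hZY : ∀ x y, Z x y → Y x y)
    (hZ : ∀ x y, ¬ Z x y → TransGen (fun u v => X u v ∨ ¬ W u v) x y)
    (hXn : ∃ x y, X x y)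
    (hrow : ∀ i k j, Y i j → Y k j) :
    ∀ i j, Y i j → TransGen (fun u v => X u v ∨ T A Y u v) i j := by
  -- no edge of `W` goes from `D` to `E`
  have h1 : ∀ d e, (∃ i, Y i d) → (∀ i, ¬ Y i e) → ¬ W d e := by
    rintro d e ⟨i0, hd⟩ he hde
    have h2 : TransGen (fun u v => X u v ∨ ¬ W u v) d e := hZ _ _ (fun h => he _ (hZY _ _ h))
    have h3 : ∀ t, TransGen (fun u v => X u v ∨ ¬ W u v) d t →
        (∃ i, Y i t) ∨ ∃ d0, (∃ i, Y i d0) ∧ ¬ W d0 t := by
      intro t ht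
      induction ht with
      | single h =>
        rcases h with h | h
        · exact Or.inl ⟨_, hXY _ _ h⟩
        · exact Or.inr ⟨d, ⟨i0, hd⟩, h⟩
      | tail _ h ih =>
        rcases h with h | h
        · exact Or.inl ⟨_, hXY _ _ h⟩
        · rcases ih with ih | ⟨d0, hd0, ih⟩
          · exact Or.inr ⟨_, ih, h⟩
          · exact Or.inr ⟨d0, hd0, hWc _ _ _ ih h⟩
    rcases h3 e h2 with ⟨i, hi⟩ | ⟨d0, _, h4⟩
    · exact he _ hi
    · exact h4 (hWt _ _ _ (hYW _ _ (hrow i0 d0 d hd)) hde)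
  -- every edge of `A` inside `D` is an edge of `T`
  have h2 : ∀ p q, (∃ i, Y i p) → (∃ i, Y i q) → A p q → T A Y p q := by
    intro p q hp hq hpq
    refine ⟨hpq, hq, ?_⟩
    intro e he
    by_contra h
    exact hAc _ _ _ (fun h' => h1 p e hp he (hAW _ _ h')) h hpq
  -- the square of `D`
  have h3 : ∀ i j, (∃ k, Y k i) → (∃ k, Y k j) → TransGen (fun u v => X u v ∨ T A Y u v) i j := by
    intro i j hi hj
    have hij : W i j := by
      obtain ⟨k, hk⟩ := hj
      exact hYW _ _ (hrow k i j hk)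
    have h4 := hW i j hij
    have hstep : ∀ u v, (A u v ∨ X u v) → (∃ k, Y k u) → (∃ k, Y k v) →
        (X u v ∨ T A Y u v) := by
      intro u v huv hu hv
      rcases huv with h | h
      · exact Or.inr (h2 _ _ hu hv h)
      · exact Or.inl h
    have hXW : ∀ x y, X x y → W x y := fun x y h => hYW _ _ (hXY _ _ h)
    clear hij
    induction h4 using TransGen.head_induction_on with
    | single h => exact TransGen.single (hstep _ _ h hi hj)
    | head h _ ih =>
      rename_i a c _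
      have hc : ∃ k, Y k c := by
        by_contra hc
        push Not at hc
        rcases h with h | h
        · exact h1 _ _ hi hc (hAW _ _ h)
        · exact h1 _ _ hi hc (hXW _ _ h)
      exact TransGen.head (hstep _ _ h hi hc) (ih hc)
  intro i j hij
  by_cases hi : ∃ k, Y k i
  · exact h3 i j hi ⟨i, hij⟩
  · push Not at hi
    obtain ⟨g, d, hgd⟩ := hXn
    have hid : X i d := by
      by_contra h
      exact hXc _ _ _ (fun h' => hi _ (hXY _ _ h')) h hgd
    exact TransGen.head (Or.inl hid) (h3 d j ⟨i, hXY _ _ hid⟩ ⟨i, hij⟩)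

end Core

/-! ### The identity in `Bip(n)` -/

theorem bip_sup {n : ℕ} (a b : Bip n) : (a ⊔ b).1 = tcl (a.1 ∪ b.1) := rfl
theorem bip_compl {n : ℕ} (a : Bip n) : (aᶜ).1 = (a.1)ᶜ := rfl
theorem bip_inf {n : ℕ} (a b : Bip n) : (a ⊓ b).1 = (tcl ((a.1)ᶜ ∪ (b.1)ᶜ))ᶜ := rfl

/-- The case where the columns of `y` are constant. -/
theorem le_of_col {n : ℕ} (x a : Bip n)
    (hXn : ∃ p q, (p, q) ∈ x.1)
    (hrow : ∀ i k j, (i, j) ∈ (x ⊔ (xᶜ ⊓ (a ⊔ x))).1 → (k, j) ∈ (x ⊔ (xᶜ ⊓ (a ⊔ x))).1) :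
    x ⊔ (xᶜ ⊓ (a ⊔ x)) ≤ x ⊔ (a ⊓ (x ⊔ (xᶜ ⊓ (a ⊔ x)))) := by
  set w := a ⊔ x with hw
  set z := xᶜ ⊓ w with hz
  set y := x ⊔ z with hy
  let A : Fin n → Fin n → Prop := fun i j => (i, j) ∈ a.1
  let Y : Fin n → Fin n → Prop := fun i j => (i, j) ∈ y.1
  have hyw : y ≤ w := sup_le (le_sup_right) inf_le_right
  have hcore := core (fun i j => (i, j) ∈ x.1) A (fun i j => (i, j) ∈ w.1)
    (fun i j => (i, j) ∈ z.1) Y x.2.2 a.2.2 w.2.1 w.2.2 (fun _ _ h => h)
    (fun i j h => (le_sup_left : a ≤ w) h) (fun i j h => hyw h)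
    (fun i j h => (le_sup_left : x ≤ y) h) (fun i j h => (le_sup_right : z ≤ y) h)
    (by
      intro i j h
      have h2 : (i, j) ∈ tcl ((xᶜ).1ᶜ ∪ (w.1)ᶜ) := by
        by_contra h'
        exact h h'
      have h3 : (xᶜ).1ᶜ = x.1 := by rw [bip_compl, compl_compl]
      rw [h3] at h2
      exact h2)
    hXn hrow
  let t : Bip n := ⟨{p | T A Y p.1 p.2}, fun i j k h1 h2 => T_trans A Y a.2.1 i j k h1 h2,
    fun i j k h1 h2 => T_cotrans A Y a.2.2 i j k h1 h2⟩
  have hta : t ≤ a := fun p hp => hp.1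
  have hty : t ≤ y := by
    rintro ⟨i, j⟩ hp
    obtain ⟨k, hk⟩ := hp.2.1
    exact hrow k i j hk
  have hyt : y ≤ x ⊔ t := by
    rintro ⟨i, j⟩ hp
    exact hcore i j hp
  exact hyt.trans (sup_le le_sup_left ((le_inf hta hty).trans le_sup_right))

/-- The transpose of a bipartition. -/
def tr {n : ℕ} (x : Bip n) : Bip n :=
  ⟨{p | (p.2, p.1) ∈ x.1}, fun i j k h1 h2 => x.2.1 k j i h2 h1,
    fun i j k h1 h2 => x.2.2 k j i h2 h1⟩

/-- The transposition is an order automorphism of `Bip(n)`. -/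
def trIso (n : ℕ) : Bip n ≃o Bip n where
  toFun := tr
  invFun := tr
  left_inv _ := rfl
  right_inv _ := rfl
  map_rel_iff' := by
    intro x y
    constructor
    · intro h p hp
      exact h (a := (p.2, p.1)) hp
    · intro h p hp
      exact h hp

theorem tr_sup {n : ℕ} (x y : Bip n) : tr (x ⊔ y) = tr x ⊔ tr y := (trIso n).map_sup x y
theorem tr_inf {n : ℕ} (x y : Bip n) : tr (x ⊓ y) = tr x ⊓ tr y := (trIso n).map_inf x y
theorem tr_compl {n : ℕ} (x : Bip n) : tr (xᶜ) = (tr x)ᶜ := rfl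

/-- The identity `x ∨ (a ∧ y) = y`, with `y = x ∨ (xᶜ ∧ (a ∨ x))`, holds in `Bip(n)`. -/
theorem bip_identity {n : ℕ} (x a : Bip n) :
    x ⊔ (a ⊓ (x ⊔ (xᶜ ⊓ (a ⊔ x)))) = x ⊔ (xᶜ ⊓ (a ⊔ x)) := by
  apply le_antisymm
  · exact sup_le le_sup_left inf_le_right
  by_cases hXn : ∃ p q, (p, q) ∈ x.1
  swap
  · push Not at hXn
    have h1 : a ⊔ x ≤ xᶜ ⊓ (a ⊔ x) := by
      apply le_inf _ le_rfl
      rintro ⟨i, j⟩ _
      exact hXn i j
    have h2 : a ≤ x ⊔ (xᶜ ⊓ (a ⊔ x)) := le_sup_left.trans (h1.trans le_sup_right)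
    rw [inf_eq_left.mpr h2]
    exact sup_le le_sup_left (inf_le_right.trans (sup_le le_sup_right le_sup_left))
  by_cases hZn : ∃ p q, (p, q) ∈ (xᶜ ⊓ (a ⊔ x)).1
  swap
  · push Not at hZn
    apply sup_le le_sup_left
    rintro ⟨i, j⟩ h
    exact absurd h (hZn i j)
  have hxz : ∀ i j, (i, j) ∈ x.1 → (i, j) ∉ (xᶜ ⊓ (a ⊔ x)).1 := fun i j h h' =>
    (inf_le_left : xᶜ ⊓ (a ⊔ x) ≤ xᶜ) h' h
  rcases structure_claim (fun i j => (i, j) ∈ x.1) (fun i j => (i, j) ∈ (xᶜ ⊓ (a ⊔ x)).1)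
    (fun i j => (i, j) ∈ (x ⊔ (xᶜ ⊓ (a ⊔ x))).1) x.2.2 (xᶜ ⊓ (a ⊔ x)).2.2
    (x ⊔ (xᶜ ⊓ (a ⊔ x))).2.1
    (fun i j h => (le_sup_left : x ≤ x ⊔ (xᶜ ⊓ (a ⊔ x))) h)
    (fun i j h => (le_sup_right : xᶜ ⊓ (a ⊔ x) ≤ x ⊔ (xᶜ ⊓ (a ⊔ x))) h)
    hxz hXn hZn
    (by
      intro i j h
      obtain ⟨k, _, hk⟩ := TransGen.tail'_iff.mp
        (show TransGen (fun u v => (u, v) ∈ x.1 ∪ (xᶜ ⊓ (a ⊔ x)).1) i j from h)
      exact ⟨k, hk⟩)
    (by
      intro i j h
      obtain ⟨k, hk, _⟩ := TransGen.head'_iff.mp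
        (show TransGen (fun u v => (u, v) ∈ x.1 ∪ (xᶜ ⊓ (a ⊔ x)).1) i j from h)
      exact ⟨k, hk⟩) with h | h
  · exact le_of_col x a hXn h
  · have h1 := le_of_col (tr x) (tr a) (by
      obtain ⟨p, q, hpq⟩ := hXn
      exact ⟨q, p, hpq⟩) (by
      rw [← tr_sup, ← tr_compl, ← tr_inf, ← tr_sup]
      intro i k j hij
      exact h j i k hij)
    rw [← tr_sup, ← tr_compl, ← tr_inf, ← tr_sup, ← tr_inf, ← tr_sup] at h1
    exact (trIso n).le_iff_le.mp h1

/-! ### A 12-element ortholattice in which the identity fails -/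

/-- The carrier of the 12-element ortholattice. -/
def L12 : Type := Fin 12

instance : DecidableEq L12 := inferInstanceAs (DecidableEq (Fin 12))
instance : Fintype L12 := inferInstanceAs (Fintype (Fin 12))

/-- The elements are coded as 12 subsets of a six-element set (bit masks), closed under
intersection. -/
def L12.mask (p : L12) : ℕ :=
  (![0, 1, 2, 4, 6, 7, 8, 24, 26, 28, 40, 63] : Fin 12 → ℕ) p

/-- the orthocomplement in `L12` -/
def L12.comp (p : L12) : L12 :=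
  (![11, 10, 9, 8, 7, 6, 5, 4, 3, 2, 1, 0] : Fin 12 → Fin 12) p

/-- the element of `L12` with a given mask -/
def L12.ofMask (m : ℕ) : L12 :=
  (if m = 0 then 0 else if m = 1 then 1 else if m = 2 then 2 else if m = 4 then 3
  else if m = 6 then 4 else if m = 7 then 5 else if m = 8 then 6 else if m = 24 then 7
  else if m = 26 then 8 else if m = 28 then 9 else if m = 40 then 10 else 11 : Fin 12)

/-- the meet in `L12` -/
def L12.inf (p q : L12) : L12 := L12.ofMask (p.mask &&& q.mask)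

/-- the join in `L12` -/
def L12.sup (p q : L12) : L12 := (p.comp.inf q.comp).comp

/-- the least element of `L12` -/
def L12.zero : L12 := (0 : Fin 12)

/-- the greatest element of `L12` -/
def L12.one : L12 := (11 : Fin 12)

theorem L12.zero_inf : ∀ p : L12, L12.zero.inf p = L12.zero := by decide

theorem L12.inf_comp : ∀ p : L12, p.inf p.comp = L12.zero := by decide

instance : Ortholattice L12 where
  le p q := p.inf q = p
  le_refl := by decide
  le_trans := by decide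
  le_antisymm := by decide
  sup := L12.sup
  le_sup_left := by decide
  le_sup_right := by decide
  sup_le := by decide
  inf := L12.inf
  inf_le_left := by decide
  inf_le_right := by decide
  le_inf := by decide
  top := L12.one
  le_top := by decide
  bot := L12.zero
  bot_le := L12.zero_inf
  compl := L12.comp
  compl_anti := by decide
  compl_invol := by decide
  inf_compl_eq := L12.inf_comp

/-- the element `x` -/
def ex : L12 := (2 : Fin 12)

/-- the element `a` -/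
def ea : L12 := (1 : Fin 12)

theorem l12_fails :
    ex ⊔ (ea ⊓ (ex ⊔ (exᶜ ⊓ (ea ⊔ ex)))) ≠ ex ⊔ (exᶜ ⊓ (ea ⊔ ex)) := by decide

/-- The ortholattice term `x ∨ (xᶜ ∧ (a ∨ x))`, where `x = var 0` and `a = var 1`. -/
def rhs : OTerm := .sup (.var 0) (.inf (.compl (.var 0)) (.sup (.var 1) (.var 0)))

/-- The ortholattice term `x ∨ (a ∧ (x ∨ (xᶜ ∧ (a ∨ x))))`. -/
def lhs : OTerm := .sup (.var 0) (.inf (.var 1) rhs)

theorem q2 :
    ∃ s t : OTerm,
      (∀ n : ℕ, 0 < n → ∀ v : ℕ → Bip n, s.eval v = t.eval v) ∧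
      ∃ (K : Type) (_ : Ortholattice K) (v : ℕ → K), s.eval v ≠ t.eval v := by
  refine ⟨lhs, rhs, ?_, L12, inferInstance, fun i => if i = 0 then ex else ea, ?_⟩
  · intro n _ v
    exact bip_identity (v 0) (v 1)
  · exact l12_fails

/-! ### The lattice identity -/

theorem bip_bp {n : ℕ} (z : Bip n) : Pool.Agent.R645.BipRel.BP (fun i j => (i, j) ∈ z.1) where
  tr := z.2.1
  co i j k h := by
    by_contra hcon
    push Not at hcon
    exact z.2.2 i j k hcon.1 hcon.2 h

theorem bip_disj {n : ℕ} {p r : Bip n} (h : p ≤ r) :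
    ∀ i j, (i, j) ∈ p.1 → ¬ (i, j) ∈ (rᶜ).1 := fun _ _ h1 h2 => h2 (h h1)

theorem bip_compl_inf {n : ℕ} (p r : Bip n) : ((p ⊓ r)ᶜ).1 = (pᶜ ⊔ rᶜ).1 := by
  rw [bip_compl, bip_inf, compl_compl]
  rfl

/-- The inequality `a ∧ (x ∨ (b ∧ (c ∨ y))) ≤ y ∨ ((a ∨ c ∨ y) ∧ (c ∨ ((x ∨ y) ∧ (x ∨ b))))`
in `Bip(n)`. -/
theorem bip_le {n : ℕ} (a b c x y : Bip n) :
    a ⊓ (x ⊔ (b ⊓ (c ⊔ y))) ≤ y ⊔ (((a ⊔ c) ⊔ y) ⊓ (c ⊔ ((x ⊔ y) ⊓ (x ⊔ b)))) := by
  rintro ⟨i, j⟩ hs
  by_contra ht
  refine Pool.Agent.R645.BipRel.main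
    (S := fun i j => (i, j) ∈ (a ⊓ (x ⊔ (b ⊓ (c ⊔ y)))).1)
    (T := fun i j => (i, j) ∈ ((y ⊔ (((a ⊔ c) ⊔ y) ⊓ (c ⊔ ((x ⊔ y) ⊓ (x ⊔ b)))))ᶜ).1)
    (x := fun i j => (i, j) ∈ x.1)
    (b := fun i j => (i, j) ∈ (b ⊓ (c ⊔ y)).1)
    (c := fun i j => (i, j) ∈ c.1)
    (y := fun i j => (i, j) ∈ y.1)
    (e := fun i j => (i, j) ∈ ((x ⊔ y)ᶜ).1)
    (g := fun i j => (i, j) ∈ ((x ⊔ b)ᶜ).1)
    (h := fun i j => (i, j) ∈ ((c ⊔ ((x ⊔ y) ⊓ (x ⊔ b)))ᶜ).1)
    (k := fun i j => (i, j) ∈ (((a ⊔ c) ⊔ y)ᶜ).1)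
    (bip_bp _) (bip_bp _) (bip_bp _) (bip_bp _) (bip_bp _) (bip_bp _) (bip_bp _) (bip_bp _)
    (bip_bp _) (bip_bp _) ?_ ?_ ?_ ?_ (bip_disj (inf_le_left.trans (le_sup_left.trans le_sup_left)))
    (bip_disj (le_sup_right.trans le_sup_left)) (bip_disj le_sup_right) (bip_disj le_sup_left)
    (bip_disj le_sup_left) (bip_disj le_sup_right) (bip_disj le_sup_left)
    (bip_disj (inf_le_left.trans le_sup_right)) (bip_disj le_sup_left) i j hs ht
  · intro i j h
    exact (inf_le_right : a ⊓ (x ⊔ (b ⊓ (c ⊔ y))) ≤ _) h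
  · intro i j h
    exact (inf_le_right : b ⊓ (c ⊔ y) ≤ _) h
  · intro i j h
    have h1 : (i, j) ∈ (((x ⊔ y) ⊓ (x ⊔ b))ᶜ).1 := fun h2 =>
      h ((le_sup_right : (x ⊔ y) ⊓ (x ⊔ b) ≤ c ⊔ ((x ⊔ y) ⊓ (x ⊔ b))) h2)
    rw [bip_compl_inf] at h1
    exact h1
  · intro i j h
    have h1 : (i, j) ∈ ((((a ⊔ c) ⊔ y) ⊓ (c ⊔ ((x ⊔ y) ⊓ (x ⊔ b))))ᶜ).1 := fun h2 =>
      h ((le_sup_right : ((a ⊔ c) ⊔ y) ⊓ (c ⊔ ((x ⊔ y) ⊓ (x ⊔ b))) ≤
        y ⊔ (((a ⊔ c) ⊔ y) ⊓ (c ⊔ ((x ⊔ y) ⊓ (x ⊔ b))))) h2)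
    rw [bip_compl_inf] at h1
    exact h1

/-! ### A 12-element lattice in which the lattice identity fails -/

/-- The carrier of the 12-element lattice. -/
def M12 : Type := Fin 12

instance : DecidableEq M12 := inferInstanceAs (DecidableEq (Fin 12))
instance : Fintype M12 := inferInstanceAs (Fintype (Fin 12))

/-- The elements are coded as 12 subsets of a five-element set (bit masks), closed under
intersection. -/
def M12.mask (p : M12) : ℕ :=
  (![0, 1, 3, 7, 8, 9, 15, 16, 19, 23, 24, 31] : Fin 12 → ℕ) p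

/-- the element of `M12` with a given mask -/
def M12.ofMask (m : ℕ) : M12 :=
  (if m = 0 then 0 else if m = 1 then 1 else if m = 3 then 2 else if m = 7 then 3
  else if m = 8 then 4 else if m = 9 then 5 else if m = 15 then 6 else if m = 16 then 7
  else if m = 19 then 8 else if m = 23 then 9 else if m = 24 then 10 else 11 : Fin 12)

/-- the meet in `M12` -/
def M12.inf (p q : M12) : M12 := M12.ofMask (p.mask &&& q.mask)

/-- the least mask in the list that contains `m` -/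
def M12.cl (m : ℕ) : ℕ :=
  [0, 1, 3, 7, 8, 9, 15, 16, 19, 23, 24, 31].foldl
    (fun r k => if m &&& k = m then r &&& k else r) 31

/-- the join in `M12` -/
def M12.sup (p q : M12) : M12 := M12.ofMask (M12.cl (p.mask ||| q.mask))

instance : Lattice M12 where
  le p q := p.inf q = p
  le_refl := by decide
  le_trans := by decide
  le_antisymm := by decide
  sup := M12.sup
  le_sup_left := by decide
  le_sup_right := by decide
  sup_le := by decide
  inf := M12.inf
  inf_le_left := by decide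
  inf_le_right := by decide
  le_inf := by decide

/-- the value of `a` and `b` -/
def me : M12 := (3 : Fin 12)
/-- the value of `c` -/
def mc : M12 := (1 : Fin 12)
/-- the value of `x` -/
def mx : M12 := (4 : Fin 12)
/-- the value of `y` -/
def my : M12 := (7 : Fin 12)

theorem m12_fails :
    (me ⊓ (mx ⊔ (me ⊓ (mc ⊔ my)))) ⊔
      (my ⊔ (((me ⊔ mc) ⊔ my) ⊓ (mc ⊔ ((mx ⊔ my) ⊓ (mx ⊔ me))))) ≠
    my ⊔ (((me ⊔ mc) ⊔ my) ⊓ (mc ⊔ ((mx ⊔ my) ⊓ (mx ⊔ me)))) := by decide

/-- The lattice term `a ∧ (x ∨ (b ∧ (c ∨ y)))`; `a, b, c, x, y` are `var 0, …, var 4`. -/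
def lterm1 : LTerm := .inf (.var 0) (.sup (.var 3) (.inf (.var 1) (.sup (.var 2) (.var 4))))

/-- The lattice term `y ∨ ((a ∨ c ∨ y) ∧ (c ∨ ((x ∨ y) ∧ (x ∨ b))))`. -/
def lterm2 : LTerm := .sup (.var 4) (.inf (.sup (.sup (.var 0) (.var 2)) (.var 4))
  (.sup (.var 2) (.inf (.sup (.var 3) (.var 4)) (.sup (.var 3) (.var 1)))))

theorem q1 :
    ∃ s t : LTerm,
      (∀ n : ℕ, 0 < n → ∀ v : ℕ → Bip n, s.eval v = t.eval v) ∧
      ∃ (K : Type) (_ : Lattice K) (v : ℕ → K), s.eval v ≠ t.eval v := by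
  refine ⟨.sup lterm1 lterm2, lterm2, ?_, M12, inferInstance,
    fun i => if i = 2 then mc else if i = 3 then mx else if i = 4 then my else me, ?_⟩
  · intro n _ v
    exact sup_eq_right.mpr (bip_le (v 0) (v 1) (v 2) (v 3) (v 4))
  · exact m12_fails

/-- **Positive answers to Q1 and Q2**: there is a lattice identity that holds in `Bip(n)` for
every positive integer `n` and fails in some lattice; and there is an ortholattice identity that
holds in `Bip(n)` for every positive integer `n` and fails in some ortholattice. -/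
theorem result :
    (∃ s t : LTerm,
      (∀ n : ℕ, 0 < n → ∀ v : ℕ → Bip n, s.eval v = t.eval v) ∧
      ∃ (K : Type) (_ : Lattice K) (v : ℕ → K), s.eval v ≠ t.eval v) ∧
    (∃ s t : OTerm,
      (∀ n : ℕ, 0 < n → ∀ v : ℕ → Bip n, s.eval v = t.eval v) ∧
      ∃ (K : Type) (_ : Ortholattice K) (v : ℕ → K), s.eval v ≠ t.eval v) :=
  ⟨q1, q2⟩

end Pool.Agent.R645.BipBoth
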