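import Mathlib

/-!
# Connected families of sets and the combinatorial core for the identity of `Bip(n)`
-/

set_option autoImplicit false

namespace Pool.Agent.R645.BipCore

open Relation

variable {V : Type*}

/-- incomparable sets -/
def Inc (A B : Set V) : Prop := ¬ A ⊆ B ∧ ¬ B ⊆ A

/-- comparable sets -/
def Cmp (A B : Set V) : Prop := A ⊆ B ∨ B ⊆ A

theorem Inc.symm {A B : Set V} (h : Inc A B) : Inc B A := ⟨h.2, h.1⟩
theorem Cmp.symm {A B : Set V} (h : Cmp A B) : Cmp B A := Or.symm h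
theorem Inc.not_cmp {A B : Set V} (h : Inc A B) : ¬ Cmp A B := fun h' => h'.elim h.1 h.2
theorem inc_of_not_cmp {A B : Set V} (h : ¬ Cmp A B) : Inc A B :=
  ⟨fun h' => h (Or.inl h'), fun h' => h (Or.inr h')⟩

/-- one step inside a family -/
def Stp (C : Set (Set V)) (A B : Set V) : Prop := A ∈ C ∧ B ∈ C ∧ Inc A B

/-- connected families -/
def Conn (C : Set (Set V)) : Prop := ∀ A ∈ C, ∀ B ∈ C, ReflTransGen (Stp C) A B

/-- The family `C ⊆ F` is connected and `⋂ C ⊆ B ⊆ ⋃ C`. -/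
structure Cover (F : Set (Set V)) (C : Set (Set V)) (B : Set V) : Prop where
  sub : C ⊆ F
  ne : C.Nonempty
  conn : Conn C
  lower : ∀ v, (∀ A ∈ C, v ∈ A) → v ∈ B
  upper : ∀ v ∈ B, ∃ A ∈ C, v ∈ A

theorem side_le {C : Set (Set V)} (hC : Conn C) {W : Set V} (h : ∀ A ∈ C, Cmp A W) {A₀ : Set V}
    (h0 : A₀ ∈ C) (h1 : A₀ ⊆ W) : ∀ A ∈ C, A ⊆ W := by
  intro A hA
  have h2 := hC A₀ h0 A hA
  clear hA
  induction h2 with
  | refl => exact h1
  | tail _ hst ih =>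
    rcases h _ hst.2.1 with h3 | h3
    · exact h3
    · exact absurd (ih.trans h3) hst.2.2.1

theorem side_ge {C : Set (Set V)} (hC : Conn C) {W : Set V} (h : ∀ A ∈ C, Cmp A W) {A₀ : Set V}
    (h0 : A₀ ∈ C) (h1 : W ⊆ A₀) : ∀ A ∈ C, W ⊆ A := by
  intro A hA
  have h2 := hC A₀ h0 A hA
  clear hA
  induction h2 with
  | refl => exact h1
  | tail _ hst ih =>
    rcases h _ hst.2.1 with h3 | h3
    · exact absurd (h3.trans ih) hst.2.2.2
    · exact h3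

theorem side {C : Set (Set V)} (hC : Conn C) {W : Set V} (h : ∀ A ∈ C, Cmp A W) :
    (∀ A ∈ C, A ⊆ W) ∨ (∀ A ∈ C, W ⊆ A) := by
  rcases C.eq_empty_or_nonempty with h0 | ⟨A₀, h0⟩
  · left
    intro A hA
    rw [h0] at hA
    exact hA.elim
  · rcases h A₀ h0 with h1 | h1
    · exact Or.inl (side_le hC h h0 h1)
    · exact Or.inr (side_ge hC h h0 h1)

theorem Cover.cmp {F C : Set (Set V)} {B W : Set V} (hc : Cover F C B) (h : ∀ A ∈ C, Cmp A W) :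
    Cmp B W := by
  rcases side hc.conn h with h1 | h1
  · left
    intro v hv
    obtain ⟨A, hA, hvA⟩ := hc.upper v hv
    exact h1 A hA hvA
  · right
    intro v hv
    exact hc.lower v (fun A hA => h1 A hA hv)

/-- If all members of a connected family lie below one of its members `A`, then the covered set
contains `A`. -/
theorem Cover.collapse {F C : Set (Set V)} {B A : Set V} (hc : Cover F C B) (hA : A ∈ C)
    (h : ∀ Z ∈ C, Z ⊆ A) : A ⊆ B := by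
  have h1 : ∀ Z ∈ C, A = Z := by
    intro Z hZ
    rcases (hc.conn A hA Z hZ).cases_head with h2 | ⟨b, h2, _⟩
    · exact h2
    · exact absurd (h b h2.2.1) h2.2.2.2
  intro v hv
  exact hc.lower v (fun Z hZ => h1 Z hZ ▸ hv)

/-- the component of `Z` in the family `D` -/
def comp (D : Set (Set V)) (Z : Set V) : Set (Set V) := {A | ReflTransGen (Stp D) Z A}

theorem comp_sub {D : Set (Set V)} {Z : Set V} (hZ : Z ∈ D) : comp D Z ⊆ D := by
  intro A hA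
  change ReflTransGen (Stp D) Z A at hA
  rcases hA.cases_tail with h | ⟨b, _, h⟩
  · exact h ▸ hZ
  · exact h.2.1

theorem comp_self (D : Set (Set V)) (Z : Set V) : Z ∈ comp D Z := ReflTransGen.refl

theorem comp_path {D : Set (Set V)} {Z A : Set V} (h : ReflTransGen (Stp D) Z A) :
    ReflTransGen (Stp (comp D Z)) Z A ∧ ReflTransGen (Stp (comp D Z)) A Z := by
  induction h with
  | refl => exact ⟨ReflTransGen.refl, ReflTransGen.refl⟩
  | tail h1 h2 ih =>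
    have h3 : Stp (comp D Z) _ _ := ⟨h1, h1.tail h2, h2.2.2⟩
    exact ⟨ih.1.tail h3, ReflTransGen.head ⟨h3.2.1, h3.1, h3.2.2.symm⟩ ih.2⟩

theorem comp_conn (D : Set (Set V)) (Z : Set V) : Conn (comp D Z) := fun _ hA _ hB =>
  (comp_path hA).2.trans (comp_path hB).1

theorem exit {C : Set (Set V)} (hC : Conn C) (P : Set V → Prop) {Z X₀ : Set V} (hZ : Z ∈ C)
    (hP : P Z) (hX : X₀ ∈ C) (hnP : ¬ P X₀) :
    ∃ A ∈ comp {A | A ∈ C ∧ P A} Z, ∃ X ∈ C, ¬ P X ∧ Inc A X := by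
  have h := hC Z hZ X₀ hX
  have hsub : comp {A | A ∈ C ∧ P A} Z ⊆ {A | A ∈ C ∧ P A} := comp_sub ⟨hZ, hP⟩
  have key : X₀ ∈ comp {A | A ∈ C ∧ P A} Z ∨
      ∃ A ∈ comp {A | A ∈ C ∧ P A} Z, ∃ X ∈ C, ¬ P X ∧ Inc A X := by
    clear hX hnP
    induction h with
    | refl => exact Or.inl (comp_self _ _)
    | tail h1 h2 ih =>
      rename_i b c
      rcases ih with ih | ih
      · by_cases hc : P c
        · left
          have hb : b ∈ {A | A ∈ C ∧ P A} := hsub ih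
          exact ReflTransGen.tail ih ⟨hb, ⟨h2.2.1, hc⟩, h2.2.2⟩
        · exact Or.inr ⟨b, ih, c, h2.2.1, hc, h2.2.2⟩
      · exact Or.inr ih
  rcases key with h1 | h1
  · exact absurd (hsub h1).2 hnP
  · exact h1

/-- closed families -/
def Closed (F : Set (Set V)) : Prop := ∀ C Z, Cover F C Z → Z ∈ F

/-- The hypotheses of the core statement. -/
structure Sys (Fx Fb Fc Fy Ge Gg Gh Gk : Set (Set V)) (B D : Set V) : Prop where
  closedb : Closed Fb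
  closedh : Closed Gh
  j1 : ∃ C, Cover (Fx ∪ Fb) C B
  j2 : ∀ A ∈ Fb, ∃ C, Cover (Fc ∪ Fy) C A
  j3 : ∀ A ∈ Gh, ∃ C, Cover (Ge ∪ Gg) C A
  j4 : ∃ C, Cover (Gk ∪ Gh) C D
  kB : ∀ K ∈ Gk, Cmp K B
  kc : ∀ K ∈ Gk, ∀ A ∈ Fc, Cmp K A
  ky : ∀ K ∈ Gk, ∀ A ∈ Fy, Cmp K A
  hc : ∀ H ∈ Gh, ∀ A ∈ Fc, Cmp H A
  ex : ∀ E ∈ Ge, ∀ A ∈ Fx, Cmp E A
  ey : ∀ E ∈ Ge, ∀ A ∈ Fy, Cmp E A
  gx : ∀ G ∈ Gg, ∀ A ∈ Fx, Cmp G A
  gb : ∀ G ∈ Gg, ∀ A ∈ Fb, Cmp G A
  dy : ∀ A ∈ Fy, Cmp D A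

section

variable {Fx Fb Fc Fy Ge Gg Gh Gk : Set (Set V)} {B D : Set V}

theorem Sys.dc (S : Sys Fx Fb Fc Fy Ge Gg Gh Gk B D) : ∀ A ∈ Fc, Cmp D A := by
  intro A hA
  obtain ⟨P, hP⟩ := S.j4
  apply hP.cmp
  intro Z hZ
  rcases hP.sub hZ with h | h
  · exact S.kc Z h A hA
  · exact S.hc Z h A hA

theorem Sys.db (S : Sys Fx Fb Fc Fy Ge Gg Gh Gk B D) : ∀ A ∈ Fb, Cmp D A := by
  intro A hA
  obtain ⟨P, hP⟩ := S.j2 A hA
  apply Cmp.symm
  apply hP.cmp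
  intro Z hZ
  rcases hP.sub hZ with h | h
  · exact (S.dc Z h).symm
  · exact (S.dy Z h).symm

theorem Sys.hx (S : Sys Fx Fb Fc Fy Ge Gg Gh Gk B D) : ∀ H ∈ Gh, ∀ A ∈ Fx, Cmp H A := by
  intro H hH A hA
  obtain ⟨P, hP⟩ := S.j3 H hH
  apply hP.cmp
  intro Z hZ
  rcases hP.sub hZ with h | h
  · exact S.ex Z h A hA
  · exact S.gx Z h A hA

/-- the case where one member of `R ∩ Gg` is below all members of `C` -/
theorem Sys.caseA (S : Sys Fx Fb Fc Fy Ge Gg Gh Gk B D) (hBD : ¬ Cmp B D)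
    {C R : Set (Set V)} {H K G0 : Set V} (hC : Cover (Fx ∪ Fb) C B)
    (hH : H ∈ Gh) (hR : Cover (Ge ∪ Gg) R H) (hK : K ∈ Gk) (hKH : Inc K H) (hHB : Inc H B)
    (h3 : ∀ A ∈ Fc, H ⊆ A → D ⊆ A) (hG0 : G0 ∈ R) (hG : ∀ A ∈ C, G0 ⊆ A) : False := by
  -- `C` has a member outside `Fb`
  obtain ⟨X0, hX0C, hX0b⟩ : ∃ X ∈ C, X ∉ Fb := by
    by_contra hcon
    push Not at hcon
    exact hBD (hC.cmp (fun A hA => (S.db A (hcon A hA)).symm))
  -- all members of `R` are below all members of `C` in `Fx`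
  have hA : ∀ X ∈ C, X ∈ Fx → ∀ Z ∈ R, Z ⊆ X := by
    intro X hX hXx
    apply side_le hR.conn _ hG0 (hG X hX)
    intro Z hZ
    rcases hR.sub hZ with h | h
    · exact S.ex Z h X hXx
    · exact S.gx Z h X hXx
  have hAH : ∀ X ∈ C, X ∈ Fx → H ⊆ X := by
    intro X hX hXx v hv
    obtain ⟨Z, hZ, hvZ⟩ := hR.upper v hv
    exact hA X hX hXx Z hZ hvZ
  -- members of `R ∩ Gg` are below adjacent members of `Fb`
  have hGd : ∀ d ∈ Fb, ∀ X ∈ C, X ∈ Fx → Inc d X → ∀ Z ∈ R, Z ∈ Gg → Z ⊆ d := by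
    intro d hd X hX hXx hinc Z hZ hZg
    rcases S.gb Z hZg d hd with h | h
    · exact h
    · exact absurd (h.trans (hA X hX hXx Z hZ)) hinc.1
  -- the main facts for adjacent pairs
  have hadj : ∀ d ∈ Fb, ∀ X ∈ C, X ∈ Fx → Inc d X → ∀ Y, Cover (Fc ∪ Fy) Y d →
      ∀ Z ∈ Y, Z ∈ Fc → H ⊆ Z := by
    intro d hd X hX hXx hinc Y hY
    have h1 : ∀ v ∈ H, ∃ Z ∈ Y, v ∈ Z := by
      obtain ⟨j, hjd, hjX⟩ := Set.not_subset.mp hinc.1
      obtain ⟨Z1, hZ1, hjZ1⟩ := hY.upper j hjd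
      intro v hv
      rcases hY.sub hZ1 with h | h
      · rcases S.hc H hH Z1 h with h2 | h2
        · exact ⟨Z1, hZ1, h2 hv⟩
        · exact absurd (hAH X hX hXx (h2 hjZ1)) hjX
      · obtain ⟨Q, hQ, hvQ⟩ := hR.upper v hv
        rcases hR.sub hQ with hQ' | hQ'
        · rcases S.ey Q hQ' Z1 h with h2 | h2
          · exact ⟨Z1, hZ1, h2 hvQ⟩
          · exact absurd (hA X hX hXx Q hQ (h2 hjZ1)) hjX
        · exact hY.upper v (hGd d hd X hX hXx hinc Q hQ hQ' hvQ)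
    have hKY : ∀ Z ∈ Y, Cmp Z K := by
      intro Z hZ
      rcases hY.sub hZ with h | h
      · exact (S.kc K hK Z h).symm
      · exact (S.ky K hK Z h).symm
    have hK2 : ∀ Z ∈ Y, K ⊆ Z := by
      rcases side hY.conn hKY with h | h
      · exfalso
        apply hKH.2
        intro v hv
        obtain ⟨Z, hZ, hvZ⟩ := h1 v hv
        exact h Z hZ hvZ
      · exact h
    intro Z hZ hZc
    rcases S.hc H hH Z hZc with h | h
    · exact h
    · exact absurd ((hK2 Z hZ).trans h) hKH.1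
  -- an adjacent `d` covered by members of `Fy` only contains `H`
  have hnoC : ∀ d ∈ Fb, ∀ X ∈ C, X ∈ Fx → Inc d X → ∀ Y, Cover (Fc ∪ Fy) Y d →
      (∀ Z ∈ Y, Z ∉ Fc) → H ⊆ d := by
    intro d hd X hX hXx hinc Y hY hno
    have h1 : ∀ Z ∈ R, Cmp Z d := by
      intro Z hZ
      rcases hR.sub hZ with h | h
      · apply Cmp.symm
        apply hY.cmp
        intro W hW
        rcases hY.sub hW with h2 | h2
        · exact absurd h2 (hno W hW)
        · exact (S.ey Z h W h2).symm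
      · exact S.gb Z h d hd
    rcases side hR.conn h1 with h | h
    · intro v hv
      obtain ⟨Z, hZ, hvZ⟩ := hR.upper v hv
      exact h Z hZ hvZ
    · exact absurd ((h G0 hG0).trans (hA X hX hXx G0 hG0)) hinc.1
  -- members of `C ∩ Fb` can be replaced by adjacent sets
  have hstar : ∀ Z ∈ C, Z ∈ Fb → ∃ d ∈ Fb, ∃ X ∈ C, X ∈ Fx ∧ Inc d X ∧
      ∀ v ∈ d, v ∈ Z ∨ v ∉ X := by
    intro Z hZ hZb
    obtain ⟨A, hA1, X, hX, hXb, hinc⟩ := exit hC.conn (fun A => A ∈ Fb) hZ hZb hX0C hX0b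
    have hXx : X ∈ Fx := (hC.sub hX).resolve_right hXb
    obtain ⟨r, hrA, hrX⟩ := Set.not_subset.mp hinc.1
    have hsub : comp {A | A ∈ C ∧ A ∈ Fb} Z ⊆ {A | A ∈ C ∧ A ∈ Fb} := comp_sub ⟨hZ, hZb⟩
    refine ⟨{v | (∀ A' ∈ comp {A | A ∈ C ∧ A ∈ Fb} Z, v ∈ A') ∨ v = r}, ?_, X, hX, hXx, ?_, ?_⟩
    · apply S.closedb (comp {A | A ∈ C ∧ A ∈ Fb} Z)
      refine ⟨fun A' hA' => (hsub hA').2, ⟨Z, comp_self _ _⟩, comp_conn _ _, ?_, ?_⟩
      · intro v hv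
        exact Or.inl hv
      · rintro v (hv | hv)
        · exact ⟨Z, comp_self _ _, hv Z (comp_self _ _)⟩
        · exact ⟨A, hA1, hv ▸ hrA⟩
    · constructor
      · intro h
        exact hrX (h (Or.inr rfl))
      · intro h
        apply hinc.2
        intro v hv
        rcases h hv with h' | h'
        · exact h' A hA1
        · exact absurd (h' ▸ hv) hrX
    · rintro v (hv | hv)
      · exact Or.inl (hv Z (comp_self _ _))
      · exact Or.inr (hv ▸ hrX)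
  -- an adjacent pair with `H` not inside `d`
  obtain ⟨d, hd, X1, hX1, hX1x, hinc, hHd⟩ : ∃ d ∈ Fb, ∃ X ∈ C, X ∈ Fx ∧ Inc d X ∧ ¬ H ⊆ d := by
    by_contra hcon
    push Not at hcon
    apply hHB.1
    intro v hv
    apply hC.lower v
    intro Z hZ
    rcases hC.sub hZ with h | h
    · exact hAH Z hZ h hv
    · obtain ⟨d, hd, X, hX, hXx, hinc, h2⟩ := hstar Z hZ h
      rcases h2 v (hcon d hd X hX hXx hinc hv) with h4 | h4
      · exact h4
      · exact absurd (hAH X hX hXx hv) h4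
  obtain ⟨Y, hY⟩ := S.j2 d hd
  obtain ⟨C1, hC1, hC1c⟩ : ∃ Z ∈ Y, Z ∈ Fc := by
    by_contra hcon
    push Not at hcon
    exact hHd (hnoC d hd X1 hX1 hX1x hinc Y hY hcon)
  have hHC1 : H ⊆ C1 := hadj d hd X1 hX1 hX1x hinc Y hY C1 hC1 hC1c
  have hDcmp : ∀ Y d, Cover (Fc ∪ Fy) Y d → ∀ Z ∈ Y, Cmp Z D := by
    intro Y d hY Z hZ
    rcases hY.sub hZ with h | h
    · exact (S.dc Z h).symm
    · exact (S.dy Z h).symm
  have hDY : ∀ Z ∈ Y, D ⊆ Z := by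
    rcases side hY.conn (hDcmp Y d hY) with h | h
    · exfalso
      exact hHd (hHC1.trans (hY.collapse hC1
        (fun Z hZ => (h Z hZ).trans (h3 C1 hC1c hHC1))))
    · exact h
  have hDd : D ⊆ d := fun v hv => hY.lower v (fun Z hZ => hDY Z hZ hv)
  obtain ⟨q, hqD, hqB⟩ : ∃ q, q ∈ D ∧ q ∉ B := by
    obtain ⟨q, h1, h2⟩ := Set.not_subset.mp (inc_of_not_cmp hBD).2
    exact ⟨q, h1, h2⟩
  have hqX : ∀ X ∈ C, X ∈ Fx → q ∈ X := by
    intro X2 hX2 hX2x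
    by_contra hq
    obtain ⟨v, hvH, hvd⟩ := Set.not_subset.mp hHd
    apply hvd
    apply hY.lower v
    intro Z hZ
    rcases hY.sub hZ with h | h
    · exact hadj d hd X1 hX1 hX1x hinc Y hY Z hZ h hvH
    · obtain ⟨Q, hQ, hvQ⟩ := hR.upper v hvH
      rcases hR.sub hQ with hQ' | hQ'
      · rcases S.ey Q hQ' Z h with h2 | h2
        · exact h2 hvQ
        · exact absurd (hA X2 hX2 hX2x Q hQ (h2 (hDY Z hZ hqD))) hq
      · exact absurd (hGd d hd X1 hX1 hX1x hinc Q hQ hQ' hvQ) hvd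
  obtain ⟨Z, hZ, hqZ⟩ : ∃ Z ∈ C, q ∉ Z := by
    by_contra hcon
    push Not at hcon
    exact hqB (hC.lower q hcon)
  have hZb : Z ∈ Fb := by
    rcases hC.sub hZ with h | h
    · exact absurd (hqX Z hZ h) hqZ
    · exact h
  obtain ⟨d3, hd3, X3, hX3, hX3x, hinc3, h4⟩ := hstar Z hZ hZb
  have hqd3 : q ∉ d3 := by
    intro hq
    rcases h4 q hq with h5 | h5
    · exact hqZ h5
    · exact h5 (hqX X3 hX3 hX3x)
  obtain ⟨Y3, hY3⟩ := S.j2 d3 hd3
  have hY3D : ∀ Z ∈ Y3, Z ⊆ D := by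
    rcases side hY3.conn (hDcmp Y3 d3 hY3) with h | h
    · exact h
    · exact absurd (hY3.lower q (fun Z hZ => h Z hZ hqD)) hqd3
  have hno : ∀ Z ∈ Y3, Z ∉ Fc := by
    intro W hW hWc
    have h5 : D ⊆ W := h3 W hWc (hadj d3 hd3 X3 hX3 hX3x hinc3 Y3 hY3 W hW hWc)
    exact hqd3 (hY3.collapse hW (fun Z hZ => (hY3D Z hZ).trans h5) (h5 hqD))
  have hHd3 : H ⊆ d3 := hnoC d3 hd3 X3 hX3 hX3x hinc3 Y3 hY3 hno
  apply hHd
  intro v hv
  obtain ⟨W, hW, hvW⟩ := hY3.upper v (hHd3 hv)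
  exact hDd (hY3D W hW hvW)

/-- The pair `K, H` in step 2. -/
theorem Sys.step2 (S : Sys Fx Fb Fc Fy Ge Gg Gh Gk B D) (hBD : ¬ Cmp B D) :
    ∃ K ∈ Gk, ∃ H ∈ Gh, Inc K H ∧ Inc H B ∧ (∀ A ∈ Fc, H ⊆ A → D ⊆ A) ∧
      (∀ A ∈ Fc, A ⊆ H → A ⊆ D) := by
  obtain ⟨P, hP⟩ := S.j4
  obtain ⟨C, hC⟩ := S.j1
  obtain ⟨H0, hH0P, hH0B⟩ : ∃ Z ∈ P, ¬ Cmp Z B := by
    by_contra hcon
    push Not at hcon
    exact hBD (hP.cmp hcon).symm
  have hH0 : H0 ∈ Gh := by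
    rcases hP.sub hH0P with h | h
    · exact absurd (S.kB H0 h) hH0B
    · exact h
  obtain ⟨K0, hK0P, hK0⟩ : ∃ Z ∈ P, Z ∉ Gh := by
    by_contra hcon
    push Not at hcon
    apply hBD
    apply hC.cmp
    intro A hA
    rcases hC.sub hA with h | h
    · apply Cmp.symm
      apply hP.cmp
      intro Z hZ
      exact S.hx Z (hcon Z hZ) A h
    · exact (S.db A h).symm
  obtain ⟨A, hA, K, hKP, hKh, hinc⟩ := exit hP.conn (fun A => A ∈ Gh) hH0P hH0 hK0P hK0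
  have hK : K ∈ Gk := (hP.sub hKP).resolve_right hKh
  have hsub : comp {A | A ∈ P ∧ A ∈ Gh} H0 ⊆ {A | A ∈ P ∧ A ∈ Gh} := comp_sub ⟨hH0P, hH0⟩
  have hcl : ∀ (A1 : Set V), A1 ∈ comp {A | A ∈ P ∧ A ∈ Gh} H0 → ∀ r ∈ A1,
      {v | (∀ A' ∈ comp {A | A ∈ P ∧ A ∈ Gh} H0, v ∈ A') ∨ v = r} ∈ Gh := by
    intro A1 hA1 r hr
    apply S.closedh (comp {A | A ∈ P ∧ A ∈ Gh} H0)
    refine ⟨fun A' hA' => (hsub hA').2, ⟨H0, comp_self _ _⟩, comp_conn _ _, ?_, ?_⟩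
    · intro v hv
      exact Or.inl hv
    · rintro v (hv | hv)
      · exact ⟨H0, comp_self _ _, hv H0 (comp_self _ _)⟩
      · exact ⟨A1, hA1, hv ▸ hr⟩
  have hfin : ∀ H ∈ Gh, Inc K H → (∀ A ∈ Fc, H ⊆ A → D ⊆ A) ∧ (∀ A ∈ Fc, A ⊆ H → A ⊆ D) := by
    intro H hH hKH
    have h1 : ∀ A ∈ Fc, ∀ Z ∈ P, Cmp Z A := by
      intro A hA Z hZ
      rcases hP.sub hZ with h | h
      · exact S.kc Z h A hA
      · exact S.hc Z h A hA
    constructor
    · intro A hA hHA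
      have h2 : K ⊆ A := by
        rcases S.kc K hK A hA with h | h
        · exact h
        · exact absurd (hHA.trans h) hKH.2
      have h3 := side_le hP.conn (h1 A hA) hKP h2
      intro v hv
      obtain ⟨Z, hZ, hvZ⟩ := hP.upper v hv
      exact h3 Z hZ hvZ
    · intro A hA hHA
      have h2 : A ⊆ K := by
        rcases S.kc K hK A hA with h | h
        · exact absurd (h.trans hHA) hKH.1
        · exact h
      have h3 := side_ge hP.conn (h1 A hA) hKP h2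
      intro v hv
      exact hP.lower v (fun Z hZ => h3 Z hZ hv)
  have hH0B' := inc_of_not_cmp hH0B
  rcases S.kB K hK with hKB | hKB
  · obtain ⟨k1, hk1, hk1A⟩ := Set.not_subset.mp hinc.2
    obtain ⟨h1, hh1, hh1B⟩ := Set.not_subset.mp hH0B'.1
    have hnk : k1 ∉ {v | (∀ A' ∈ comp {A | A ∈ P ∧ A ∈ Gh} H0, v ∈ A') ∨ v = h1} := by
      rintro (h | h)
      · exact hk1A (h A hA)
      · exact hh1B (h ▸ hKB hk1)
    have hKH : Inc K {v | (∀ A' ∈ comp {A | A ∈ P ∧ A ∈ Gh} H0, v ∈ A') ∨ v = h1} :=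
      ⟨fun h => hnk (h hk1), fun h => hh1B (hKB (h (Or.inr rfl)))⟩
    refine ⟨K, hK, _, hcl H0 (comp_self _ _) h1 hh1, hKH, ?_, hfin _ (hcl H0 (comp_self _ _) h1 hh1) hKH⟩
    exact ⟨fun h => hh1B (h (Or.inr rfl)), fun h => hnk (h (hKB hk1))⟩
  · obtain ⟨r, hr, hrK⟩ := Set.not_subset.mp hinc.1
    obtain ⟨b1, hb1, hb1H⟩ := Set.not_subset.mp hH0B'.2
    have hnb : b1 ∉ {v | (∀ A' ∈ comp {A | A ∈ P ∧ A ∈ Gh} H0, v ∈ A') ∨ v = r} := by
      rintro (h | h)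
      · exact hb1H (h H0 (comp_self _ _))
      · exact hrK (h ▸ hKB hb1)
    have hKH : Inc K {v | (∀ A' ∈ comp {A | A ∈ P ∧ A ∈ Gh} H0, v ∈ A') ∨ v = r} :=
      ⟨fun h => hnb (h (hKB hb1)), fun h => hrK (h (Or.inr rfl))⟩
    refine ⟨K, hK, _, hcl A hA r hr, hKH, ?_, hfin _ (hcl A hA r hr) hKH⟩
    exact ⟨fun h => hrK (hKB (h (Or.inr rfl))), fun h => hnb (h hb1)⟩

end

/-! ### Complements -/

/-- the family of the complements -/
def pre (F : Set (Set V)) : Set (Set V) := {A | Aᶜ ∈ F}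

theorem pre_pre (F : Set (Set V)) : pre (pre F) = F := by
  ext A
  change Aᶜᶜ ∈ F ↔ A ∈ F
  rw [compl_compl]

theorem pre_union (F G : Set (Set V)) : pre (F ∪ G) = pre F ∪ pre G := rfl

theorem cmp_compl {A B : Set V} (h : Cmp A B) : Cmp Aᶜ Bᶜ :=
  h.elim (fun h => Or.inr (Set.compl_subset_compl.mpr h))
    (fun h => Or.inl (Set.compl_subset_compl.mpr h))

theorem cmp_compl_iff {A B : Set V} : Cmp Aᶜ Bᶜ ↔ Cmp A B := by
  constructor
  · intro h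
    have := cmp_compl h
    rwa [compl_compl, compl_compl] at this
  · exact cmp_compl

theorem inc_compl {A B : Set V} (h : Inc A B) : Inc Aᶜ Bᶜ :=
  ⟨fun h' => h.2 (Set.compl_subset_compl.mp h'), fun h' => h.1 (Set.compl_subset_compl.mp h')⟩

theorem conn_pre {C : Set (Set V)} (hC : Conn C) : Conn (pre C) := by
  intro A hA B hB
  have h1 : ∀ A B : Set V, ReflTransGen (Stp C) A B → ReflTransGen (Stp (pre C)) Aᶜ Bᶜ := by
    intro A B h
    induction h with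
    | refl => exact ReflTransGen.refl
    | tail _ h2 ih =>
      refine ih.tail ⟨?_, ?_, inc_compl h2.2.2⟩
      · change _ᶜᶜ ∈ C
        rw [compl_compl]
        exact h2.1
      · change _ᶜᶜ ∈ C
        rw [compl_compl]
        exact h2.2.1
  have h2 := h1 _ _ (hC Aᶜ hA Bᶜ hB)
  rwa [compl_compl, compl_compl] at h2

theorem Cover.pre {F C : Set (Set V)} {B : Set V} (h : Cover F C B) :
    Cover (pre F) (pre C) Bᶜ := by
  refine ⟨fun A hA => h.sub hA, ?_, conn_pre h.conn, ?_, ?_⟩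
  · obtain ⟨A, hA⟩ := h.ne
    refine ⟨Aᶜ, ?_⟩
    change Aᶜᶜ ∈ C
    rwa [compl_compl]
  · intro v hv hvB
    obtain ⟨A, hA, hvA⟩ := h.upper v hvB
    have h2 : Aᶜ ∈ BipCore.pre C := by
      change Aᶜᶜ ∈ C
      rwa [compl_compl]
    exact hv Aᶜ h2 hvA
  · intro v hv
    by_contra hcon
    push Not at hcon
    apply hv
    apply h.lower v
    intro A hA
    by_contra hvA
    have h2 : Aᶜ ∈ BipCore.pre C := by
      change Aᶜᶜ ∈ C
      rwa [compl_compl]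
    exact hcon Aᶜ h2 hvA

theorem closed_pre {F : Set (Set V)} (h : Closed F) : Closed (pre F) := by
  intro C Z hCZ
  have h1 := hCZ.pre
  rw [pre_pre] at h1
  exact h _ _ h1

theorem Sys.compl {Fx Fb Fc Fy Ge Gg Gh Gk : Set (Set V)} {B D : Set V}
    (S : Sys Fx Fb Fc Fy Ge Gg Gh Gk B D) :
    Sys (pre Fx) (pre Fb) (pre Fc) (pre Fy) (pre Ge) (pre Gg) (pre Gh) (pre Gk) Bᶜ Dᶜ where
  closedb := closed_pre S.closedb
  closedh := closed_pre S.closedh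
  j1 := by
    obtain ⟨C, hC⟩ := S.j1
    exact ⟨pre C, hC.pre⟩
  j2 A hA := by
    obtain ⟨C, hC⟩ := S.j2 Aᶜ hA
    refine ⟨pre C, ?_⟩
    have := hC.pre
    rwa [compl_compl] at this
  j3 A hA := by
    obtain ⟨C, hC⟩ := S.j3 Aᶜ hA
    refine ⟨pre C, ?_⟩
    have := hC.pre
    rwa [compl_compl] at this
  j4 := by
    obtain ⟨C, hC⟩ := S.j4
    exact ⟨pre C, hC.pre⟩
  kB K hK := by
    have := cmp_compl (S.kB _ hK)
    rwa [compl_compl] at this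
  kc K hK A hA := cmp_compl_iff.mp (S.kc _ hK _ hA)
  ky K hK A hA := cmp_compl_iff.mp (S.ky _ hK _ hA)
  hc K hK A hA := cmp_compl_iff.mp (S.hc _ hK _ hA)
  ex K hK A hA := cmp_compl_iff.mp (S.ex _ hK _ hA)
  ey K hK A hA := cmp_compl_iff.mp (S.ey _ hK _ hA)
  gx K hK A hA := cmp_compl_iff.mp (S.gx _ hK _ hA)
  gb K hK A hA := cmp_compl_iff.mp (S.gb _ hK _ hA)
  dy A hA := by
    have := cmp_compl (S.dy _ hA)
    rwa [compl_compl] at this

/-- **The core statement.** -/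
theorem Sys.cmp {Fx Fb Fc Fy Ge Gg Gh Gk : Set (Set V)} {B D : Set V}
    (S : Sys Fx Fb Fc Fy Ge Gg Gh Gk B D) : Cmp B D := by
  by_contra hBD
  obtain ⟨C, hC⟩ := S.j1
  obtain ⟨K, hK, H, hH, hKH, hHB, h3, h4⟩ := S.step2 hBD
  obtain ⟨R, hR⟩ := S.j3 H hH
  obtain ⟨G0, hG0, hG0g⟩ : ∃ Z ∈ R, Z ∉ Ge := by
    by_contra hcon
    push Not at hcon
    have hHy : ∀ A ∈ Fy, Cmp H A := by
      intro A hA
      apply hR.cmp
      intro Z hZ
      exact S.ey Z (hcon Z hZ) A hA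
    apply hHB.not_cmp
    apply Cmp.symm
    apply hC.cmp
    intro A hA
    rcases hC.sub hA with h | h
    · exact (S.hx H hH A h).symm
    · obtain ⟨Y, hY⟩ := S.j2 A h
      apply hY.cmp
      intro Z hZ
      rcases hY.sub hZ with h5 | h5
      · exact (S.hc H hH Z h5).symm
      · exact (hHy Z h5).symm
  have hG : G0 ∈ Gg := (hR.sub hG0).resolve_left hG0g
  have hside : (∀ A ∈ C, A ⊆ G0) ∨ (∀ A ∈ C, G0 ⊆ A) := by
    apply side hC.conn
    intro A hA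
    rcases hC.sub hA with h | h
    · exact (S.gx G0 hG A h).symm
    · exact (S.gb G0 hG A h).symm
  rcases hside with h | h
  · refine S.compl.caseA (fun h' => hBD (cmp_compl_iff.mp h')) hC.pre
      (H := Hᶜ) (K := Kᶜ) (G0 := G0ᶜ) (R := pre R) ?_ hR.pre ?_ (inc_compl hKH)
      (inc_compl hHB) ?_ ?_ ?_
    · change Hᶜᶜ ∈ Gh
      rwa [compl_compl]
    · change Kᶜᶜ ∈ Gk
      rwa [compl_compl]
    · intro A hA hHA
      have h5 : Aᶜ ⊆ H := by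
        intro v hv
        by_contra hvH
        exact hv (hHA hvH)
      have h6 := h4 Aᶜ hA h5
      intro v hv
      by_contra hvA
      exact hv (h6 hvA)
    · change G0ᶜᶜ ∈ R
      rwa [compl_compl]
    · intro A hA v hv
      by_contra hvA
      exact hv (h Aᶜ hA hvA)
  · exact S.caseA hBD hC hH hR hK hKH hHB h3 hG0 h

end Pool.Agent.R645.BipCore
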