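import Pool.Agent.R645.BipCore

/-!
# The core statement for relations
-/

set_option autoImplicit false

namespace Pool.Agent.R645.BipRel

open Relation Pool.Agent.R645.BipCore

variable {V : Type*}

/-- Covering lemma: a set comparable to all sets that are comparable to all members of `F` is
covered by a connected subfamily of `F`. -/
theorem exists_cover [Finite V] {F : Set (Set V)} {B : Set V} (h0 : ∅ ∈ F) (h1 : Set.univ ∈ F)
    (h : ∀ W : Set V, (∀ A ∈ F, Cmp A W) → Cmp B W) : ∃ C, Cover F C B := by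
  by_contra hno
  push Not at hno
  have hBF : B ∉ F := by
    intro hB
    apply hno {B}
    refine ⟨by rintro A rfl; exact hB, ⟨B, rfl⟩, ?_, ?_, ?_⟩
    · rintro A rfl A' rfl
      exact ReflTransGen.refl
    · intro v hv
      exact hv B rfl
    · intro v hv
      exact ⟨B, rfl, hv⟩
  let I : Set V → Set V := fun A => {v | ∀ Z ∈ comp F A, v ∈ Z}
  let J : Set V → Set V := fun A => {v | ∃ Z ∈ comp F A, v ∈ Z}
  have hIJ : ∀ A ∈ F, ¬ (I A ⊆ B ∧ B ⊆ J A) := by
    rintro A hA ⟨h2, h3⟩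
    exact hno (comp F A) ⟨comp_sub hA, ⟨A, comp_self _ _⟩, comp_conn _ _, h2, h3⟩
  have hIA : ∀ A, I A ⊆ A := fun A v hv => hv A (comp_self _ _)
  have hAJ : ∀ A, A ⊆ J A := fun A v hv => ⟨A, comp_self _ _, hv⟩
  -- components are comparable
  have hstp : ∀ A B : Set V, Stp F A B → Stp F B A := fun A B h => ⟨h.2.1, h.1, h.2.2.symm⟩
  have hpath : ∀ A B : Set V, ReflTransGen (Stp F) A B → ReflTransGen (Stp F) B A := by
    intro A B h
    induction h with
    | refl => exact ReflTransGen.refl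
    | tail _ h2 ih => exact ReflTransGen.head (hstp _ _ h2) ih
  have hcc : ∀ A ∈ F, ∀ A' ∈ F, A' ∉ comp F A →
      ((∀ Z ∈ comp F A, ∀ Z' ∈ comp F A', Z ⊆ Z') ∨ (∀ Z ∈ comp F A, ∀ Z' ∈ comp F A', Z' ⊆ Z)) := by
    intro A hA A' hA' hn
    have hcmp : ∀ Z ∈ comp F A, ∀ Z' ∈ comp F A', Cmp Z Z' := by
      intro Z hZ Z' hZ'
      by_contra hc
      have h2 : Stp F Z Z' := ⟨comp_sub hA hZ, comp_sub hA' hZ', inc_of_not_cmp hc⟩
      exact hn ((ReflTransGen.tail hZ h2).trans (hpath _ _ hZ'))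
    rcases hcmp A (comp_self _ _) A' (comp_self _ _) with h2 | h2
    · left
      intro Z hZ Z' hZ'
      have h3 : ∀ Z ∈ comp F A, Z ⊆ A' :=
        side_le (comp_conn F A) (fun Z hZ => hcmp Z hZ A' (comp_self _ _)) (comp_self _ _) h2
      exact side_ge (comp_conn F A') (fun W hW => (hcmp Z hZ W hW).symm) (comp_self _ _) (h3 Z hZ)
        Z' hZ'
    · right
      intro Z hZ Z' hZ'
      have h3 : ∀ Z ∈ comp F A, A' ⊆ Z :=
        side_ge (comp_conn F A) (fun Z hZ => hcmp Z hZ A' (comp_self _ _)) (comp_self _ _) h2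
      exact side_le (comp_conn F A') (fun W hW => (hcmp Z hZ W hW).symm) (comp_self _ _) (h3 Z hZ)
        Z' hZ'
  have hsame : ∀ A A', A' ∈ comp F A → comp F A' = comp F A := by
    intro A A' h2
    ext Z
    constructor
    · intro hZ
      exact ReflTransGen.trans h2 hZ
    · intro hZ
      exact ReflTransGen.trans (hpath _ _ h2) hZ
  have hIs : ∀ A A', A' ∈ comp F A → I A' = I A := by
    intro A A' h2
    change {v | ∀ Z ∈ comp F A', v ∈ Z} = {v | ∀ Z ∈ comp F A, v ∈ Z}
    rw [hsame A A' h2]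
  have hJs : ∀ A A', A' ∈ comp F A → J A' = J A := by
    intro A A' h2
    change {v | ∃ Z ∈ comp F A', v ∈ Z} = {v | ∃ Z ∈ comp F A, v ∈ Z}
    rw [hsame A A' h2]
  have hJch : ∀ A ∈ F, ∀ A' ∈ F, Cmp (J A) (J A') := by
    intro A hA A' hA'
    by_cases h2 : A' ∈ comp F A
    · exact Or.inl (hJs A A' h2).symm.subset
    · rcases hcc A hA A' hA' h2 with h3 | h3
      · left
        rintro v ⟨Z, hZ, hv⟩
        exact ⟨A', comp_self _ _, h3 Z hZ A' (comp_self _ _) hv⟩
      · right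
        rintro v ⟨Z, hZ, hv⟩
        exact ⟨A, comp_self _ _, h3 A (comp_self _ _) Z hZ hv⟩
  have hIch : ∀ A ∈ F, ∀ A' ∈ F, Cmp (I A) (I A') := by
    intro A hA A' hA'
    by_cases h2 : A' ∈ comp F A
    · exact Or.inl (hIs A A' h2).symm.subset
    · rcases hcc A hA A' hA' h2 with h3 | h3
      · left
        intro v hv Z hZ
        exact h3 A (comp_self _ _) Z hZ (hIA A hv)
      · right
        intro v hv Z hZ
        exact h3 Z hZ A' (comp_self _ _) (hIA A' hv)
  let Lo : Set (Set V) := {A | A ∈ F ∧ I A ⊆ B}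
  let Hi : Set (Set V) := {A | A ∈ F ∧ ¬ I A ⊆ B}
  have hLH : ∀ A ∈ Lo, ∀ A' ∈ Hi, J A ⊆ I A' := by
    intro A hA A' hA'
    have h2 : A' ∉ comp F A := by
      intro h3
      apply hA'.2
      rw [hIs A A' h3]
      exact hA.2
    rcases hcc A hA.1 A' hA'.1 h2 with h3 | h3
    · rintro v ⟨Z, hZ, hv⟩ Z' hZ'
      exact h3 Z hZ Z' hZ' hv
    · exfalso
      apply hA'.2
      intro v hv
      exact hA.2 (fun Z hZ => h3 Z hZ A' (comp_self _ _) (hIA A' hv))
  -- the union of the low components does not contain `B`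
  have hlow : ¬ B ⊆ {v | ∃ A ∈ Lo, v ∈ J A} := by
    intro hB
    rcases Lo.eq_empty_or_nonempty with h2 | h2
    · apply hBF
      have h3 : B = ∅ := by
        apply Set.eq_empty_of_forall_notMem
        intro v hv
        obtain ⟨A, hA, _⟩ := hB hv
        rw [h2] at hA
        exact hA
      rw [h3]
      exact h0
    · obtain ⟨A, hA, hmax⟩ := Set.exists_max_image Lo (fun A => (J A).ncard) (Set.toFinite _) h2
      apply hIJ A hA.1
      refine ⟨hA.2, ?_⟩
      intro v hv
      obtain ⟨A', hA', hv'⟩ := hB hv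
      rcases hJch A hA.1 A' hA'.1 with h3 | h3
      · rw [Set.eq_of_subset_of_ncard_le h3 (hmax A' hA') (Set.toFinite _)]
        exact hv'
      · exact h3 hv'
  have hHi : Hi.Nonempty := by
    refine ⟨Set.univ, h1, ?_⟩
    intro h2
    apply hBF
    have h3 : I Set.univ = Set.univ := by
      apply Set.eq_univ_of_forall
      intro v Z hZ
      change ReflTransGen (Stp F) Set.univ Z at hZ
      rcases hZ.cases_head with h4 | ⟨b, h4, _⟩
      · rw [← h4]
        trivial
      · exact absurd (Set.subset_univ b) h4.2.2.2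
    rw [h3] at h2
    rw [Set.eq_univ_of_univ_subset h2]
    exact h1
  have hhigh : ∃ r, (∀ A ∈ Hi, r ∈ I A) ∧ r ∉ B := by
    obtain ⟨A, hA, hmin⟩ := Set.exists_min_image Hi (fun A => (I A).ncard) (Set.toFinite _) hHi
    obtain ⟨r, hr, hrB⟩ := Set.not_subset.mp hA.2
    refine ⟨r, ?_, hrB⟩
    intro A' hA'
    rcases hIch A hA.1 A' hA'.1 with h3 | h3
    · exact h3 hr
    · rw [Set.eq_of_subset_of_ncard_le h3 (hmin A' hA') (Set.toFinite _)]
      exact hr
  obtain ⟨r, hr, hrB⟩ := hhigh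
  have hfin := h {v | (∃ A ∈ Lo, v ∈ J A) ∨ v = r} (by
    intro A hA
    by_cases h2 : I A ⊆ B
    · left
      intro v hv
      exact Or.inl ⟨A, ⟨hA, h2⟩, hAJ A hv⟩
    · right
      rintro v (⟨A', hA', hv⟩ | hv)
      · exact hIA A (hLH A' hA' A ⟨hA, h2⟩ hv)
      · rw [hv]
        exact hIA A (hr A ⟨hA, h2⟩))
  rcases hfin with h2 | h2
  · apply hlow
    intro v hv
    rcases h2 hv with h3 | h3
    · exact h3
    · exact absurd (h3 ▸ hv) hrB
  · exact hrB (h2 (Or.inr rfl))

/-- bipartitions as relations -/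
structure BP (z : V → V → Prop) : Prop where
  tr : ∀ i j k, z i j → z j k → z i k
  co : ∀ i j k, z i k → z i j ∨ z j k

/-- the sets `A` with `Aᶜ × A ⊆ z` -/
def U (z : V → V → Prop) : Set (Set V) := {A | ∀ i, i ∉ A → ∀ j, j ∈ A → z i j}

theorem gen {x : V → V → Prop} (hx : BP x) {i j : V} (hij : i ≠ j) (h : x i j) :
    ∃ A ∈ U x, i ∉ A ∧ j ∈ A := by
  refine ⟨{k | (x i k ∧ ¬ x k i) ∨ k = j}, ?_, ?_, Or.inr rfl⟩
  · have key : ∀ u v, u ∉ {k | (x i k ∧ ¬ x k i) ∨ k = j} → x i v → x u v := by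
      intro u v hu hv
      have hu' : ¬ (x i u ∧ ¬ x u i) := fun h' => hu (Or.inl h')
      by_cases h1 : x i u
      · have h2 : x u i := by
          by_contra h3
          exact hu' ⟨h1, h3⟩
        exact hx.tr _ _ _ h2 hv
      · exact (hx.co i u v hv).resolve_left h1
    intro u hu v hv
    rcases hv with hv | hv
    · exact key u v hu hv.1
    · rw [hv]
      exact key u j hu h
  · rintro (h1 | h1)
    · exact h1.2 h1.1
    · exact hij h1

theorem cmp_of_disjoint {a b : V → V → Prop} (h : ∀ i j, a i j → ¬ b i j) {A A' : Set V}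
    (hA : A ∈ U a) (hA' : A' ∈ pre (U b)) : Cmp A' A := by
  by_contra hc
  have hinc := inc_of_not_cmp hc
  obtain ⟨i, hi, hiA⟩ := Set.not_subset.mp hinc.1
  obtain ⟨j, hj, hjA'⟩ := Set.not_subset.mp hinc.2
  exact h i j (hA i hiA j hj) (hA' i (fun h' => h' hi) j hjA')

theorem cover_of_le [Finite V] {x y z : V → V → Prop} (hx : BP x) (hy : BP y)
    (hz : ∀ i j, z i j → TransGen (fun u v => x u v ∨ y u v) i j) {B : Set V} (hB : B ∈ U z) :
    ∃ C, Cover (U x ∪ U y) C B := by
  apply exists_cover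
  · left
    intro i _ j hj
    exact hj.elim
  · left
    intro i hi
    exact absurd trivial hi
  · intro W hW
    by_contra hc
    have hinc := inc_of_not_cmp hc
    obtain ⟨i, hi, hiB⟩ := Set.not_subset.mp hinc.2
    obtain ⟨j, hj, hjW⟩ := Set.not_subset.mp hinc.1
    have hcl : ∀ (x : V → V → Prop), BP x → (∀ A ∈ U x, Cmp A W) → ∀ u v, x u v → u ∈ W →
        v ∈ W := by
      intro x hx h u v huv hu
      by_contra hv
      obtain ⟨A, hA, huA, hvA⟩ := gen hx (by rintro rfl; exact hv hu) huv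
      rcases h A hA with h1 | h1
      · exact hv (h1 hvA)
      · exact huA (h1 hu)
    have h1 := hcl x hx (fun A hA => hW A (Or.inl hA))
    have h2 := hcl y hy (fun A hA => hW A (Or.inr hA))
    have h3 := hz i j (hB i hiB j hj)
    apply hjW
    clear hj hjW
    induction h3 with
    | single h =>
      rcases h with h | h
      · exact h1 _ _ h hi
      · exact h2 _ _ h hi
    | tail _ h ih =>
      rcases h with h | h
      · exact h1 _ _ h ih
      · exact h2 _ _ h ih

theorem closed_U {b : V → V → Prop} (hb : BP b) : Closed (U b) := by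
  intro C Z hC i hi j hj
  by_contra hij
  have hcmp : ∀ A ∈ C, Cmp A {k | b i k ∨ k = i} := by
    intro A hA
    by_contra hc
    have hinc := inc_of_not_cmp hc
    obtain ⟨a, ha, haW⟩ := Set.not_subset.mp hinc.1
    obtain ⟨w, hw, hwA⟩ := Set.not_subset.mp hinc.2
    have h1 := hC.sub hA w hwA a ha
    apply haW
    left
    rcases hw with hw | hw
    · exact hb.tr _ _ _ hw h1
    · rwa [hw] at h1
  rcases side hC.conn hcmp with h | h
  · obtain ⟨A, hA, hjA⟩ := hC.upper j hj
    rcases h A hA hjA with h1 | h1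
    · exact hij h1
    · exact hi (h1 ▸ hj)
  · exact hi (hC.lower i (fun A hA => h A hA (Or.inr rfl)))

theorem offdiag [Finite V] {S T x b c y e g h k : V → V → Prop}
    (pS : BP S) (pT : BP T) (px : BP x) (pb : BP b) (pc : BP c) (py : BP y) (pe : BP e)
    (pg : BP g) (ph : BP h) (pk : BP k)
    (hS : ∀ i j, S i j → TransGen (fun u v => x u v ∨ b u v) i j)
    (hb : ∀ i j, b i j → TransGen (fun u v => c u v ∨ y u v) i j)
    (hh : ∀ i j, h i j → TransGen (fun u v => e u v ∨ g u v) i j)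
    (hT : ∀ i j, T i j → TransGen (fun u v => k u v ∨ h u v) i j)
    (kS : ∀ i j, S i j → ¬ k i j) (kc : ∀ i j, c i j → ¬ k i j) (ky : ∀ i j, y i j → ¬ k i j)
    (hc : ∀ i j, c i j → ¬ h i j) (ex : ∀ i j, x i j → ¬ e i j) (ey : ∀ i j, y i j → ¬ e i j)
    (gx : ∀ i j, x i j → ¬ g i j) (gb : ∀ i j, b i j → ¬ g i j) (yT : ∀ i j, y i j → ¬ T i j)
    (q p : V) (hqp : q ≠ p) (h1 : S q p) (h2 : T q p) : False := by
  obtain ⟨B, hB, hqB, hpB⟩ := gen pS hqp h1
  obtain ⟨D', hD, hqD, hpD⟩ := gen pT hqp h2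
  have hDc : D'ᶜ ∈ pre (U T) := by
    change D'ᶜᶜ ∈ U T
    rwa [compl_compl]
  have hSys : Sys (U x) (U b) (U c) (U y) (pre (U e)) (pre (U g)) (pre (U h)) (pre (U k)) B D'ᶜ :=
    { closedb := closed_U pb
      closedh := closed_pre (closed_U ph)
      j1 := cover_of_le px pb hS hB
      j2 := fun A hA => cover_of_le pc py hb hA
      j3 := by
        intro A hA
        obtain ⟨C, hC⟩ := cover_of_le pe pg hh hA
        refine ⟨pre C, ?_⟩
        have h3 := hC.pre
        rwa [compl_compl] at h3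
      j4 := by
        obtain ⟨C, hC⟩ := cover_of_le pk ph hT hD
        exact ⟨pre C, hC.pre⟩
      kB := fun K hK => cmp_of_disjoint kS hB hK
      kc := fun K hK A hA => cmp_of_disjoint kc hA hK
      ky := fun K hK A hA => cmp_of_disjoint ky hA hK
      hc := fun K hK A hA => cmp_of_disjoint hc hA hK
      ex := fun K hK A hA => cmp_of_disjoint ex hA hK
      ey := fun K hK A hA => cmp_of_disjoint ey hA hK
      gx := fun K hK A hA => cmp_of_disjoint gx hA hK
      gb := fun K hK A hA => cmp_of_disjoint gb hA hK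
      dy := fun A hA => cmp_of_disjoint yT hA hDc }
  rcases hSys.cmp with h3 | h3
  · exact h3 hpB hpD
  · exact hqB (h3 hqD)

/-- pull back along `V × Bool → V` -/
def pb2 (z : V → V → Prop) : V × Bool → V × Bool → Prop := fun u v => z u.1 v.1

theorem bp_pb2 {z : V → V → Prop} (h : BP z) : BP (pb2 z) :=
  ⟨fun i j k h1 h2 => h.tr i.1 j.1 k.1 h1 h2, fun i j k h1 => h.co i.1 j.1 k.1 h1⟩

theorem lift2 {x y z : V → V → Prop}
    (h : ∀ i j, z i j → TransGen (fun u v => x u v ∨ y u v) i j) :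
    ∀ i j, pb2 z i j → TransGen (fun u v => pb2 x u v ∨ pb2 y u v) i j := by
  have key : ∀ (i j : V), TransGen (fun u v => x u v ∨ y u v) i j → ∀ b b' : Bool,
      TransGen (fun u v => pb2 x u v ∨ pb2 y u v) (i, b) (j, b') := by
    intro i j h1 b
    induction h1 with
    | single h2 =>
      intro b'
      exact TransGen.single h2
    | tail _ h2 ih =>
      intro b'
      exact TransGen.tail (ih b) h2
  intro i j hij
  exact key i.1 j.1 (h _ _ hij) i.2 j.2

theorem disj2 {x y : V → V → Prop} (h : ∀ i j, x i j → ¬ y i j) :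
    ∀ i j, pb2 x i j → ¬ pb2 y i j := fun i j h1 => h i.1 j.1 h1

/-- **The core statement for relations**, all pairs. -/
theorem main [Finite V] {S T x b c y e g h k : V → V → Prop}
    (pS : BP S) (pT : BP T) (px : BP x) (pb : BP b) (pc : BP c) (py : BP y) (pe : BP e)
    (pg : BP g) (ph : BP h) (pk : BP k)
    (hS : ∀ i j, S i j → TransGen (fun u v => x u v ∨ b u v) i j)
    (hb : ∀ i j, b i j → TransGen (fun u v => c u v ∨ y u v) i j)
    (hh : ∀ i j, h i j → TransGen (fun u v => e u v ∨ g u v) i j)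
    (hT : ∀ i j, T i j → TransGen (fun u v => k u v ∨ h u v) i j)
    (kS : ∀ i j, S i j → ¬ k i j) (kc : ∀ i j, c i j → ¬ k i j) (ky : ∀ i j, y i j → ¬ k i j)
    (hc : ∀ i j, c i j → ¬ h i j) (ex : ∀ i j, x i j → ¬ e i j) (ey : ∀ i j, y i j → ¬ e i j)
    (gx : ∀ i j, x i j → ¬ g i j) (gb : ∀ i j, b i j → ¬ g i j) (yT : ∀ i j, y i j → ¬ T i j)
    (q p : V) (h1 : S q p) (h2 : T q p) : False :=
  offdiag (bp_pb2 pS) (bp_pb2 pT) (bp_pb2 px) (bp_pb2 pb) (bp_pb2 pc) (bp_pb2 py) (bp_pb2 pe)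
    (bp_pb2 pg) (bp_pb2 ph) (bp_pb2 pk) (lift2 hS) (lift2 hb) (lift2 hh) (lift2 hT)
    (disj2 kS) (disj2 kc) (disj2 ky) (disj2 hc) (disj2 ex) (disj2 ey) (disj2 gx) (disj2 gb)
    (disj2 yT) (q, false) (p, true) (by simp) h1 h2

end Pool.Agent.R645.BipRel
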