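import Pool.Agent.R645.RegTree

/-!
# MP_397c7d_co, Q2: the lattices `Reg S`, `S` a finite join-semilattice, satisfy no nontrivial
lattice identity
-/

set_option autoImplicit false

namespace Pool.Agent.R645.RegSemi

open Pool.Agent.R645.RegTree (LTerm Word Valid El lab lt Ext SExt EP Gam Del W Z)

section RegS

variable {S : Type*} [SemilatticeSup S]

/-- The interior operator attached to the closure `x ↦ x^∨` (Mathlib's `supClosure`, the set of
joins of nonempty finite subsets of `x`). -/
def int (x : Set S) : Set S := (supClosure xᶜ)ᶜ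

/-- `x` is regular closed if it is the closure of its interior. -/
def IsRegularClosed (x : Set S) : Prop := x = supClosure (int x)

variable (S) in
/-- The regular closed subsets of the join-semilattice `S`. -/
def Reg : Type _ := {x : Set S // IsRegularClosed x}

theorem int_subset (x : Set S) : int x ⊆ x := by
  intro s hs
  by_contra h
  exact hs (subset_supClosure h)

theorem int_mono {x y : Set S} (h : x ⊆ y) : int x ⊆ int y := by
  intro s hs hs'
  exact hs (supClosure_mono (Set.compl_subset_compl.2 h) hs')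

theorem int_int (x : Set S) : int (int x) = int x := by
  unfold int
  rw [compl_compl, supClosure_idem]

theorem regular_of_open {x : Set S} (h : int x = x) : IsRegularClosed (supClosure x) := by
  unfold IsRegularClosed
  refine Set.Subset.antisymm (supClosure_mono ?_) ?_
  · calc x = int x := h.symm
      _ ⊆ int (supClosure x) := int_mono subset_supClosure
  · exact supClosure_min (int_subset _) supClosed_supClosure

theorem Reg.closed (a : Reg S) : SupClosed a.1 := by
  rw [a.2]
  exact supClosed_supClosure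

/-- join -/
def Reg.sup (a b : Reg S) : Reg S := ⟨supClosure (a.1 ∪ b.1), by
  unfold IsRegularClosed
  refine Set.Subset.antisymm ?_ (supClosure_min (int_subset _) supClosed_supClosure)
  refine supClosure_min (Set.union_subset ?_ ?_) supClosed_supClosure
  · intro s hs
    rw [a.2] at hs
    exact supClosure_mono (int_mono (Set.subset_union_left.trans subset_supClosure)) hs
  · intro s hs
    rw [b.2] at hs
    exact supClosure_mono (int_mono (Set.subset_union_right.trans subset_supClosure)) hs⟩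

/-- meet -/
def Reg.inf (a b : Reg S) : Reg S := ⟨supClosure (int (a.1 ∩ b.1)), regular_of_open (int_int _)⟩

variable (S) in
/-- The lattice `Reg S`, ordered by inclusion. -/
@[instance_reducible]
def Reg.lattice : Lattice (Reg S) where
  le a b := a.1 ⊆ b.1
  le_refl a := subset_rfl
  le_trans a b c h h' := Set.Subset.trans h h'
  le_antisymm a b h h' := Subtype.ext (Set.Subset.antisymm h h')
  sup := Reg.sup
  le_sup_left a b := Set.subset_union_left.trans subset_supClosure
  le_sup_right a b := Set.subset_union_right.trans subset_supClosure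
  sup_le a b c h h' := supClosure_min (Set.union_subset h h') c.closed
  inf := Reg.inf
  inf_le_left a b := supClosure_min ((int_subset _).trans Set.inter_subset_left) a.closed
  inf_le_right a b := supClosure_min ((int_subset _).trans Set.inter_subset_right) b.closed
  le_inf a b c h h' := by
    show a.1 ⊆ supClosure (int (b.1 ∩ c.1))
    intro s hs
    rw [a.2] at hs
    exact supClosure_mono (int_mono (Set.subset_inter h h')) hs

/-- a finite cover argument -/
theorem cover [Finite S] {V : Set S} (hV : SupClosed V) (y : S) (hne : ∃ u ∈ V, u ≤ y)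
    (h : ∀ z, (∀ u ∈ V, u ≤ y → u ≤ z) → y ≤ z) : y ∈ V := by
  classical
  have hfin : {u | u ∈ V ∧ u ≤ y}.Finite := Set.toFinite _
  have hn : hfin.toFinset.Nonempty := by
    obtain ⟨u, hu, hu'⟩ := hne
    exact ⟨u, hfin.mem_toFinset.2 ⟨hu, hu'⟩⟩
  have e : hfin.toFinset.sup' hn id = y := by
    apply le_antisymm
    · exact Finset.sup'_le _ _ fun u hu => (hfin.mem_toFinset.1 hu).2
    · apply h
      intro u hu hu'
      exact Finset.le_sup' id (hfin.mem_toFinset.2 ⟨hu, hu'⟩)
  rw [← e]
  exact hV.finsetSup'_mem hn fun u hu => (hfin.mem_toFinset.1 hu).1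

end RegS

section Tree

universe u

variable {K : Type u} [Lattice K] (v : ℕ → K) {p q : LTerm}

/-- the order on `El` -/
def ltE (x y : El v p q) : Prop := lt x.1 y.1

variable {v} in
theorem ltE_trans {x y z : El v p q} (h : ltE v x y) (h' : ltE v y z) : ltE v x z :=
  RegTree.lt_trans' _ _ _ h h'

/-- up-set generated by `a` -/
def up (a : El v p q) : Set (El v p q) := {a' | a' = a ∨ ltE v a a'}

/-- down-set generated by `b` -/
def dn (b : El v p q) : Set (El v p q) := {b' | b' = b ∨ ltE v b' b}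

/-- the admissible pairs (up-set, down-set) -/
structure Good (x : Set (El v p q) × Set (El v p q)) : Prop where
  upper : ∀ a ∈ x.1, ∀ a', ltE v a a' → a' ∈ x.1
  lower : ∀ b ∈ x.2, ∀ b', ltE v b' b → b' ∈ x.2
  g1 : ∀ a ∈ x.1, ∃ a' ∈ x.1, a ∈ up v a' ∧ ∃ b ∈ x.2, ltE v a' b
  g2 : ∀ b ∈ x.2, ∃ b' ∈ x.2, b ∈ dn v b' ∧ ∃ a ∈ x.1, ltE v a b'

variable (p q) in
/-- the join-semilattice -/
abbrev Sg : Type := {x : Set (El v p q) × Set (El v p q) // Good v x}

theorem good_sup {x y : Set (El v p q) × Set (El v p q)} (hx : Good v x) (hy : Good v y) :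
    Good v (x ⊔ y) := by
  refine ⟨?_, ?_, ?_, ?_⟩
  · rintro a (ha | ha) a' h
    · exact Or.inl (hx.upper a ha a' h)
    · exact Or.inr (hy.upper a ha a' h)
  · rintro a (ha | ha) a' h
    · exact Or.inl (hx.lower a ha a' h)
    · exact Or.inr (hy.lower a ha a' h)
  · rintro a (ha | ha)
    · obtain ⟨a', h1, h2, b, h3, h4⟩ := hx.g1 a ha
      exact ⟨a', Or.inl h1, h2, b, Or.inl h3, h4⟩
    · obtain ⟨a', h1, h2, b, h3, h4⟩ := hy.g1 a ha
      exact ⟨a', Or.inr h1, h2, b, Or.inr h3, h4⟩
  · rintro a (ha | ha)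
    · obtain ⟨a', h1, h2, b, h3, h4⟩ := hx.g2 a ha
      exact ⟨a', Or.inl h1, h2, b, Or.inl h3, h4⟩
    · obtain ⟨a', h1, h2, b, h3, h4⟩ := hy.g2 a ha
      exact ⟨a', Or.inr h1, h2, b, Or.inr h3, h4⟩

instance : SemilatticeSup (Sg v p q) := Subtype.semilatticeSup (fun _ _ hx hy => good_sup v hx hy)

instance : Finite (Sg v p q) := by
  have := RegTree.el_finite (p := p) (q := q) v
  infer_instance

/-- principal elements -/
def pr (a b : El v p q) (h : ltE v a b) : Sg v p q := ⟨(up v a, dn v b), by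
  refine ⟨?_, ?_, ?_, ?_⟩
  · rintro c (rfl | hc) c' h'
    · exact Or.inr h'
    · exact Or.inr (ltE_trans hc h')
  · rintro c (rfl | hc) c' h'
    · exact Or.inr h'
    · exact Or.inr (ltE_trans h' hc)
  · intro c hc
    exact ⟨a, Or.inl rfl, hc, b, Or.inl rfl, h⟩
  · intro c hc
    exact ⟨b, Or.inl rfl, hc, a, Or.inl rfl, h⟩⟩

theorem pr_join {a c b : El v p q} (h1 : ltE v a c) (h2 : ltE v c b) :
    pr v a c h1 ⊔ pr v c b h2 = pr v a b (ltE_trans h1 h2) := by
  apply Subtype.ext
  show (up v a ∪ up v c, dn v c ∪ dn v b) = (up v a, dn v b)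
  congr 1
  · apply Set.union_eq_left.2
    rintro x (rfl | hx)
    · exact Or.inr h1
    · exact Or.inr (ltE_trans h1 hx)
  · apply Set.union_eq_right.2
    rintro x (rfl | hx)
    · exact Or.inr h2
    · exact Or.inr (ltE_trans hx h2)

/-- classes of elements with a fixed top -/
def CU (ρ : Word p q) (hρ : Valid v ρ) (R : Word p q → Prop) (x : Sg v p q) : Prop :=
  x.1.2 = dn v (Z v p q ρ hρ) ∧ ∀ α hα, W v p q α hα ∈ x.1.1 →
    ltE v (W v p q α hα) (Z v p q ρ hρ) → R α

/-- classes of elements with a fixed bottom -/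
def CD (π : Word p q) (hπ : Valid v π) (R : Word p q → Prop) (x : Sg v p q) : Prop :=
  x.1.1 = up v (W v p q π hπ) ∧ ∀ β hβ, Z v p q β hβ ∈ x.1.2 →
    ltE v (W v p q π hπ) (Z v p q β hβ) → R β

theorem CU_prime {ρ : Word p q} {hρ : Valid v ρ} {R : Word p q → Prop} {x y : Sg v p q}
    (h : CU v ρ hρ R (x ⊔ y)) : CU v ρ hρ R x ∨ CU v ρ hρ R y := by
  obtain ⟨h1, h2⟩ := h
  have h1' : x.1.2 ∪ y.1.2 = dn v (Z v p q ρ hρ) := h1
  have hz : Z v p q ρ hρ ∈ x.1.2 ∪ y.1.2 := by rw [h1']; exact Or.inl rfl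
  rcases hz with hz | hz
  · left
    refine ⟨Set.Subset.antisymm ?_ ?_, fun α hα hm hl => h2 α hα (Or.inl hm) hl⟩
    · rw [← h1']; exact Set.subset_union_left
    · rintro b (rfl | hb)
      · exact hz
      · exact x.2.lower _ hz _ hb
  · right
    refine ⟨Set.Subset.antisymm ?_ ?_, fun α hα hm hl => h2 α hα (Or.inr hm) hl⟩
    · rw [← h1']; exact Set.subset_union_right
    · rintro b (rfl | hb)
      · exact hz
      · exact y.2.lower _ hz _ hb

theorem CD_prime {π : Word p q} {hπ : Valid v π} {R : Word p q → Prop} {x y : Sg v p q}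
    (h : CD v π hπ R (x ⊔ y)) : CD v π hπ R x ∨ CD v π hπ R y := by
  obtain ⟨h1, h2⟩ := h
  have h1' : x.1.1 ∪ y.1.1 = up v (W v p q π hπ) := h1
  have hz : W v p q π hπ ∈ x.1.1 ∪ y.1.1 := by rw [h1']; exact Or.inl rfl
  rcases hz with hz | hz
  · left
    refine ⟨Set.Subset.antisymm ?_ ?_, fun α hα hm hl => h2 α hα (Or.inl hm) hl⟩
    · rw [← h1']; exact Set.subset_union_left
    · rintro b (rfl | hb)
      · exact hz
      · exact x.2.upper _ hz _ hb
  · right
    refine ⟨Set.Subset.antisymm ?_ ?_, fun α hα hm hl => h2 α hα (Or.inr hm) hl⟩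
    · rw [← h1']; exact Set.subset_union_right
    · rintro b (rfl | hb)
      · exact hz
      · exact y.2.upper _ hz _ hb

theorem part {C : Sg v p q → Prop} (hC : ∀ x y, C (x ⊔ y) → C x ∨ C y) {X : Set (Sg v p q)}
    {x : Sg v p q} (hx : x ∈ supClosure X) (h : C x) : ∃ y ∈ X, C y := by
  by_contra hcon
  push Not at hcon
  have hcl : SupClosed {y | ¬ C y} := by
    intro a ha b hb hab
    rcases hC a b hab with h' | h'
    · exact ha h'
    · exact hb h'
  exact supClosure_min (fun y hy => hcon y hy) hcl hx h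

/-- the condition for the top class -/
abbrev RT (ρ : Word p q) : Word p q → Prop := fun α => SExt true ρ α
/-- the condition for the node class -/
abbrev RG (ρ : Word p q) : Word p q → Prop := fun α => SExt true ρ α ∨ EP α ρ
/-- the condition for the bottom class -/
abbrev RB (π : Word p q) : Word p q → Prop := fun β => SExt false π β
/-- the condition for the dual node class -/
abbrev RD (π : Word p q) : Word p q → Prop := fun β => SExt false π β ∨ EP π β

variable (p q) in
/-- the open sets of the variables -/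
def U (i : ℕ) : Set (Sg v p q) := {x | (∃ ρ hρ, CU v ρ hρ (RT ρ) x) ∨
  (∃ ρ hρ, CU v ρ hρ (RG ρ) x ∧ Gam v ρ (.var i))}

theorem U_open (i : ℕ) : int (U v p q i) = U v p q i := by
  have : SupClosed (U v p q i)ᶜ := by
    intro x hx y hy hxy
    rcases hxy with ⟨ρ, hρ, h⟩ | ⟨ρ, hρ, h, h'⟩
    · rcases CU_prime v h with h1 | h1
      · exact hx (Or.inl ⟨ρ, hρ, h1⟩)
      · exact hy (Or.inl ⟨ρ, hρ, h1⟩)
    · rcases CU_prime v h with h1 | h1
      · exact hx (Or.inr ⟨ρ, hρ, h1, h'⟩)
      · exact hy (Or.inr ⟨ρ, hρ, h1, h'⟩)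
  unfold int
  rw [supClosure_eq_self.2 this, compl_compl]

variable (p q) in
/-- the values of the variables -/
def FF (i : ℕ) : Reg (Sg v p q) := ⟨supClosure (U v p q i), regular_of_open (U_open v i)⟩

variable (p q) in
/-- the values of the terms -/
def VV (r : LTerm) : Reg (Sg v p q) :=
  @LTerm.eval (Reg (Sg v p q)) (Reg.lattice (Sg v p q)) (FF v p q) r

/-- what is proved for every term -/
structure Main (r : LTerm) : Prop where
  top : ∀ ρ hρ x, CU v ρ hρ (RT ρ) x → x ∈ int (VV v p q r).1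
  bot : ∀ π hπ x, CD v π hπ (RB π) x → x ∉ (VV v p q r).1
  gam : ∀ ρ hρ x, CU v ρ hρ (RG ρ) x → Gam v ρ r → x ∈ int (VV v p q r).1
  del : ∀ π hπ x, CD v π hπ (RD π) x → Del v π r → x ∉ (VV v p q r).1

theorem wz_lt {π ρ : Word p q} {hπ : Valid v π} {hρ : Valid v ρ} {x : Sg v p q}
    (h1 : x.1.1 = up v (W v p q π hπ)) (h2 : x.1.2 = dn v (Z v p q ρ hρ)) :
    ltE v (W v p q π hπ) (Z v p q ρ hρ) := by
  have hw : W v p q π hπ ∈ x.1.1 := by rw [h1]; exact Or.inl rfl
  obtain ⟨⟨⟨b, a⟩, ha⟩, k1, k2, c, k3, k4⟩ := x.2.g1 _ hw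
  have k5 : ltE v (W v p q π hπ) c := by
    rcases k2 with k2 | k2
    · rw [k2]; exact k4
    · exact ltE_trans (by
        rw [h1] at k1
        rcases k1 with k1 | k1
        · rw [k1] at k2; exact (RegTree.lt_irrefl _ k2).elim
        · exact k1) k4
  rw [h2] at k3
  rcases k3 with rfl | k3
  · exact k5
  · exact ltE_trans k5 k3

theorem main_var (hpq : ¬ p.eval v ≤ q.eval v) (i : ℕ) : Main v (p := p) (q := q) (.var i) := by
  have hsub : U v p q i ⊆ int (VV v p q (.var i)).1 := by
    calc U v p q i = int (U v p q i) := (U_open v i).symm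
      _ ⊆ int (supClosure (U v p q i)) := int_mono subset_supClosure
  refine ⟨fun ρ hρ x h => hsub (Or.inl ⟨ρ, hρ, h⟩), ?_,
    fun ρ hρ x h h' => hsub (Or.inr ⟨ρ, hρ, h, h'⟩), ?_⟩
  · intro π hπ x h hx
    obtain ⟨y, hy, hy1, hy2⟩ := part v (C := CD v π hπ (RB π)) (X := U v p q i)
      (fun a b hab => CD_prime v hab) hx h
    have hw : W v p q π hπ ∈ y.1.1 := by rw [hy1]; exact Or.inl rfl
    rcases hy with ⟨ρ, hρ, h1, h2⟩ | ⟨ρ, hρ, ⟨h1, h2⟩, h3⟩
    · have hlt := wz_lt v hy1 h1
      have hz : Z v p q ρ hρ ∈ y.1.2 := by rw [h1]; exact Or.inl rfl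
      exact RegTree.b_not_t (h2 π hπ hw hlt) (hy2 ρ hρ hz hlt)
    · have hlt := wz_lt v hy1 h1
      have hz : Z v p q ρ hρ ∈ y.1.2 := by rw [h1]; exact Or.inl rfl
      rcases h2 π hπ hw hlt with h4 | h4
      · exact RegTree.b_not_t h4 (hy2 ρ hρ hz hlt)
      · exact RegTree.ep_not_t h4 (hy2 ρ hρ hz hlt)
  · intro π hπ x h h' hx
    obtain ⟨y, hy, hy1, hy2⟩ := part v (C := CD v π hπ (RD π)) (X := U v p q i)
      (fun a b hab => CD_prime v hab) hx h
    have hw : W v p q π hπ ∈ y.1.1 := by rw [hy1]; exact Or.inl rfl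
    rcases hy with ⟨ρ, hρ, h1, h2⟩ | ⟨ρ, hρ, ⟨h1, h2⟩, h3⟩
    · have hlt := wz_lt v hy1 h1
      have hz : Z v p q ρ hρ ∈ y.1.2 := by rw [h1]; exact Or.inl rfl
      rcases hy2 ρ hρ hz hlt with h5 | h5
      · exact RegTree.b_not_t (h2 π hπ hw hlt) h5
      · exact RegTree.ep_not_b h5 (h2 π hπ hw hlt)
    · have hlt := wz_lt v hy1 h1
      have hz : Z v p q ρ hρ ∈ y.1.2 := by rw [h1]; exact Or.inl rfl
      rcases h2 π hπ hw hlt with h4 | h4
      · rcases hy2 ρ hρ hz hlt with h5 | h5
        · exact RegTree.b_not_t h4 h5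
        · exact RegTree.ep_not_b h5 h4
      · exact RegTree.ep_sep v hpq hπ hρ h4 (h3.2.2.trans h'.2.2)

theorem mem_int_of {C : Sg v p q → Prop} (hC : ∀ x y, C (x ⊔ y) → C x ∨ C y)
    {X : Set (Sg v p q)} {x : Sg v p q} (h : C x) (hX : ∀ y, C y → y ∈ X) : x ∈ int X := by
  intro hx
  obtain ⟨y, hy, hy'⟩ := part v hC hx h
  exact hy (hX y hy')

/-- an element with top `Z ρ` is a join of principal elements -/
theorem cover_up {V : Set (Sg v p q)} (hV : SupClosed V) {ρ : Word p q} {hρ : Valid v ρ}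
    (y : Sg v p q) (hy : y.1.2 = dn v (Z v p q ρ hρ))
    (h : ∀ a ∈ y.1.1, ∀ hl : ltE v a (Z v p q ρ hρ), pr v a (Z v p q ρ hρ) hl ∈ V) : y ∈ V := by
  have key : ∀ a ∈ y.1.1, ltE v a (Z v p q ρ hρ) → ∀ hl : ltE v a (Z v p q ρ hρ),
      pr v a (Z v p q ρ hρ) hl ≤ y := by
    intro a ha _ hl
    constructor
    · rintro c (rfl | hc)
      · exact ha
      · exact y.2.upper _ ha _ hc
    · show dn v (Z v p q ρ hρ) ⊆ y.1.2
      rw [hy]
  have hlt : ∀ a : El v p q, ∀ b ∈ y.1.2, ltE v a b → ltE v a (Z v p q ρ hρ) := by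
    intro a b hb hab
    rw [hy] at hb
    rcases hb with rfl | hb
    · exact hab
    · exact ltE_trans hab hb
  have hz : Z v p q ρ hρ ∈ y.1.2 := by rw [hy]; exact Or.inl rfl
  obtain ⟨b', hb', -, a0, ha0, hab0⟩ := y.2.g2 _ hz
  have hl0 := hlt a0 b' hb' hab0
  refine cover hV y ⟨_, h a0 ha0 hl0, key a0 ha0 hl0 hl0⟩ ?_
  intro z hz'
  constructor
  · intro a ha
    obtain ⟨a', ha', h1, b, hb, h2⟩ := y.2.g1 a ha
    have hl := hlt a' b hb h2
    have := hz' _ (h a' ha' hl) (key a' ha' hl hl)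
    exact this.1 h1
  · intro b hb
    have := hz' _ (h a0 ha0 hl0) (key a0 ha0 hl0 hl0)
    rw [hy] at hb
    exact this.2 hb

/-- an element with bottom `W π` is a join of principal elements -/
theorem cover_dn {V : Set (Sg v p q)} (hV : SupClosed V) {π : Word p q} {hπ : Valid v π}
    (y : Sg v p q) (hy : y.1.1 = up v (W v p q π hπ))
    (h : ∀ b ∈ y.1.2, ∀ hl : ltE v (W v p q π hπ) b, pr v (W v p q π hπ) b hl ∈ V) : y ∈ V := by
  have key : ∀ b ∈ y.1.2, ∀ hl : ltE v (W v p q π hπ) b,
      pr v (W v p q π hπ) b hl ≤ y := by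
    intro b hb hl
    constructor
    · show up v (W v p q π hπ) ⊆ y.1.1
      rw [hy]
    · rintro c (rfl | hc)
      · exact hb
      · exact y.2.lower _ hb _ hc
  have hlt : ∀ b : El v p q, ∀ a ∈ y.1.1, ltE v a b → ltE v (W v p q π hπ) b := by
    intro b a ha hab
    rw [hy] at ha
    rcases ha with rfl | ha
    · exact hab
    · exact ltE_trans ha hab
  have hz : W v p q π hπ ∈ y.1.1 := by rw [hy]; exact Or.inl rfl
  obtain ⟨a', ha', -, b0, hb0, hab0⟩ := y.2.g1 _ hz
  have hl0 := hlt b0 a' ha' hab0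
  refine cover hV y ⟨_, h b0 hb0 hl0, key b0 hb0 hl0⟩ ?_
  intro z hz'
  constructor
  · intro b hb
    have := hz' _ (h b0 hb0 hl0) (key b0 hb0 hl0)
    rw [hy] at hb
    exact this.1 hb
  · intro b hb
    obtain ⟨b', hb', h1, a, ha, h2⟩ := y.2.g2 b hb
    have hl := hlt b' a ha h2
    have := hz' _ (h b' hb' hl) (key b' hb' hl)
    exact this.2 h1

theorem W_up_cases {α π : Word p q} {hα : Valid v α} {hπ : Valid v π}
    (h : W v p q α hα ∈ up v (W v p q π hπ)) : π <:+ α := by
  rcases h with h | h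
  · have : α = π := congrArg (fun x : El v p q => x.1.2) h
    rw [this]
  · exact h.1

theorem Z_dn_cases {β ρ : Word p q} {hβ : Valid v β} {hρ : Valid v ρ}
    (h : Z v p q β hβ ∈ dn v (Z v p q ρ hρ)) : ρ <:+ β := by
  rcases h with h | h
  · have : β = ρ := congrArg (fun x : El v p q => x.1.2) h
    rw [this]
  · exact h.1

theorem W_not_up_Z {α ρ : Word p q} {hα : Valid v α} {hρ : Valid v ρ}
    (h : W v p q α hα ∈ up v (Z v p q ρ hρ)) : False := by
  rcases h with h | h
  · have : false = true := congrArg (fun x : El v p q => x.1.1) h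
    cases this
  · exact h

theorem Z_not_dn_W {α ρ : Word p q} {hα : Valid v α} {hρ : Valid v ρ}
    (h : Z v p q α hα ∈ dn v (W v p q ρ hρ)) : False := by
  rcases h with h | h
  · have : true = false := congrArg (fun x : El v p q => x.1.1) h
    cases this
  · exact h

theorem main_sup (hpq : ¬ p.eval v ≤ q.eval v) {r s : LTerm} (hr : Main v (p := p) (q := q) r)
    (hs : Main v (p := p) (q := q) s) : Main v (p := p) (q := q) (.sup r s) := by
  have hV : (VV v p q (.sup r s)).1 = supClosure ((VV v p q r).1 ∪ (VV v p q s).1) := rfl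
  have e1 : (VV v p q r).1 ⊆ (VV v p q (.sup r s)).1 := by
    rw [hV]; exact Set.subset_union_left.trans subset_supClosure
  have e2 : (VV v p q s).1 ⊆ (VV v p q (.sup r s)).1 := by
    rw [hV]; exact Set.subset_union_right.trans subset_supClosure
  have htop : ∀ ρ hρ x, CU v ρ hρ (RT ρ) x → x ∈ int (VV v p q (.sup r s)).1 :=
    fun ρ hρ x h => int_mono e1 (hr.top ρ hρ x h)
  refine ⟨htop, ?_, ?_, ?_⟩
  · intro π hπ x h hx
    obtain ⟨y, hy, hy'⟩ := part v (C := CD v π hπ (RB π)) (fun a b hab => CD_prime v hab)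
      (show x ∈ supClosure ((VV v p q r).1 ∪ (VV v p q s).1) from hx) h
    rcases hy with hy | hy
    · exact hr.bot _ _ _ hy' hy
    · exact hs.bot _ _ _ hy' hy
  · intro ρ hρ x h h'
    refine mem_int_of v (C := CU v ρ hρ (RG ρ)) (fun a b hab => CU_prime v hab) h ?_
    rintro y ⟨hy1, hy2⟩
    refine cover_up v (VV v p q (.sup r s)).closed y hy1 ?_
    rintro ⟨⟨b, α⟩, hα⟩ ha hl
    cases b
    · have hcomp : α <:+ ρ ∨ ρ <:+ α := hl
      rcases hy2 α hα ha hl with h1 | h1
      · refine int_subset _ (htop ρ hρ _ ⟨rfl, ?_⟩)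
        intro α' hα' hm _
        exact RegTree.sext_trans h1 (W_up_cases v hm)
      · have h5 : ¬ (lab ρ).1.eval v ≤ (lab α).2.eval v := RegTree.ep_sep v hpq hα hρ h1
        have key : ∀ t : LTerm, Main v (p := p) (q := q) t → t ∈ p.subs ++ q.subs →
            t.size < (lab ρ).1.size → (VV v p q t).1 ⊆ (VV v p q (.sup r s)).1 →
            ¬ t.eval v ≤ (lab α).2.eval v →
            pr v (W v p q α hα) (Z v p q ρ hρ) hl ∈ (VV v p q (.sup r s)).1 := by
          intro t ht hta hts hte htv
          obtain ⟨τ, hτ, k1, k2, k3, k4⟩ := RegTree.child_up v hα hρ h1 hta hts htv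
          have l1 : ltE v (W v p q α hα) (Z v p q τ hτ) := RegTree.ep_comp k1
          have l2 : ltE v (Z v p q τ hτ) (Z v p q ρ hρ) := ⟨k2, k3⟩
          have m1 : pr v _ _ l1 ∈ (VV v p q (.sup r s)).1 := by
            refine hte (int_subset _ (ht.gam τ hτ _ ⟨rfl, ?_⟩ k4))
            intro α' hα' hm hl'
            rcases RegTree.lemA k1 (W_up_cases v hm) hl' with h6 | h6
            · exact Or.inr h6
            · exact Or.inl h6
          have m2 : pr v _ _ l2 ∈ (VV v p q (.sup r s)).1 := by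
            refine int_subset _ (htop ρ hρ _ ⟨rfl, ?_⟩)
            intro α' hα' hm _
            exact (W_not_up_Z v hm).elim
          have := (VV v p q (.sup r s)).closed m1 m2
          rwa [pr_join v l1 l2] at this
        have hsz := h'.2.1
        simp only [LTerm.size] at hsz
        by_cases h6 : r.eval v ≤ (lab α).2.eval v
        · have h7 : ¬ s.eval v ≤ (lab α).2.eval v := fun h7 =>
            h5 (h'.2.2.trans (sup_le h6 h7))
          exact key s hs (RegTree.alpha_sup h'.1).2 (by omega) e2 h7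
        · exact key r hr (RegTree.alpha_sup h'.1).1 (by omega) e1 h6
    · refine int_subset _ (htop ρ hρ _ ⟨rfl, ?_⟩)
      intro α' hα' hm _
      exact (W_not_up_Z v (hρ := hα) hm).elim
  · intro π hπ x h h' hx
    obtain ⟨y, hy, hy'⟩ := part v (C := CD v π hπ (RD π)) (fun a b hab => CD_prime v hab)
      (show x ∈ supClosure ((VV v p q r).1 ∪ (VV v p q s).1) from hx) h
    have hsz := h'.2.1
    simp only [LTerm.size] at hsz
    have hle : r.eval v ⊔ s.eval v ≤ (lab π).2.eval v := h'.2.2
    rcases hy with hy | hy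
    · exact hr.del _ _ _ hy' ⟨(RegTree.alpha_sup h'.1).1, by omega, le_sup_left.trans hle⟩ hy
    · exact hs.del _ _ _ hy' ⟨(RegTree.alpha_sup h'.1).2, by omega, le_sup_right.trans hle⟩ hy

theorem main_inf (hpq : ¬ p.eval v ≤ q.eval v) {r s : LTerm} (hr : Main v (p := p) (q := q) r)
    (hs : Main v (p := p) (q := q) s) : Main v (p := p) (q := q) (.inf r s) := by
  set X : Set (Sg v p q) := (VV v p q r).1 ∩ (VV v p q s).1 with hXdef
  have hV : (VV v p q (.inf r s)).1 = supClosure (int X) := rfl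
  have eint : int X ⊆ int (VV v p q (.inf r s)).1 := by
    rw [hV]
    calc int X = int (int X) := (int_int X).symm
      _ ⊆ int (supClosure (int X)) := int_mono subset_supClosure
  have e1 : (VV v p q (.inf r s)).1 ⊆ (VV v p q r).1 := by
    rw [hV]
    exact supClosure_min ((int_subset _).trans Set.inter_subset_left) (VV v p q r).closed
  have hbotX : ∀ π hπ x, CD v π hπ (RB π) x → x ∉ X := fun π hπ x h hx => hr.bot _ _ _ h hx.1
  refine ⟨?_, fun π hπ x h hx => hr.bot π hπ x h (e1 hx), ?_, ?_⟩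
  · intro ρ hρ x h
    refine eint (mem_int_of v (C := CU v ρ hρ (RT ρ)) (fun a b hab => CU_prime v hab) h ?_)
    intro y hy
    exact ⟨int_subset _ (hr.top _ _ _ hy), int_subset _ (hs.top _ _ _ hy)⟩
  · intro ρ hρ x h h'
    refine eint (mem_int_of v (C := CU v ρ hρ (RG ρ)) (fun a b hab => CU_prime v hab) h ?_)
    intro y hy
    have hsz := h'.2.1
    simp only [LTerm.size] at hsz
    have hle : (lab ρ).1.eval v ≤ r.eval v ⊓ s.eval v := h'.2.2
    exact ⟨int_subset _ (hr.gam _ _ _ hy ⟨(RegTree.alpha_inf h'.1).1, by omega,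
        hle.trans inf_le_left⟩),
      int_subset _ (hs.gam _ _ _ hy ⟨(RegTree.alpha_inf h'.1).2, by omega,
        hle.trans inf_le_right⟩)⟩
  · intro π hπ x h h' hx
    obtain ⟨y, hy, hy1, hy2⟩ := part v (C := CD v π hπ (RD π)) (fun a b hab => CD_prime v hab)
      (show x ∈ supClosure (int X) from hx) h
    apply hy
    refine cover_dn v supClosed_supClosure y hy1 ?_
    rintro ⟨⟨b, β⟩, hβ⟩ hb hl
    cases b
    · refine subset_supClosure (hbotX π hπ _ ⟨rfl, ?_⟩)
      intro β' hβ' hm _
      exact (Z_not_dn_W v (hρ := hβ) hm).elim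
    · rcases hy2 β hβ hb hl with h1 | h1
      · refine subset_supClosure (hbotX π hπ _ ⟨rfl, ?_⟩)
        intro β' hβ' hm _
        exact RegTree.sext_trans h1 (Z_dn_cases v (hρ := hβ) hm)
      · have h5 : ¬ (lab β).1.eval v ≤ (lab π).2.eval v := RegTree.ep_sep v hpq hπ hβ h1
        have key : ∀ t : LTerm, Main v (p := p) (q := q) t → t ∈ p.subs ++ q.subs →
            t.size < (lab π).2.size → X ⊆ (VV v p q t).1 →
            ¬ (lab β).1.eval v ≤ t.eval v →
            pr v (W v p q π hπ) (Z v p q β hβ) hl ∈ supClosure Xᶜ := by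
          intro t ht hta hts hte htv
          obtain ⟨τ, hτ, k1, k2, k3, k4⟩ := RegTree.child_down v hπ hβ h1 hta hts htv
          have l1 : ltE v (W v p q π hπ) (W v p q τ hτ) := ⟨k2, k3⟩
          have l2 : ltE v (W v p q τ hτ) (Z v p q β hβ) := RegTree.ep_comp k1
          have m1 : pr v _ _ l1 ∈ supClosure Xᶜ := by
            refine subset_supClosure (hbotX π hπ _ ⟨rfl, ?_⟩)
            intro β' hβ' hm _
            exact (Z_not_dn_W v hm).elim
          have m2 : pr v _ _ l2 ∈ supClosure Xᶜ := by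
            refine subset_supClosure (fun hh => ht.del τ hτ _ ⟨rfl, ?_⟩ k4 (hte hh))
            intro β' hβ' hm hl'
            rcases RegTree.lemB k1 (Z_dn_cases v hm) hl' with h6 | h6
            · exact Or.inr h6
            · exact Or.inl h6
          have := supClosed_supClosure m1 m2
          rwa [pr_join v l1 l2] at this
        have hsz := h'.2.1
        simp only [LTerm.size] at hsz
        by_cases h6 : (lab β).1.eval v ≤ r.eval v
        · have h7 : ¬ (lab β).1.eval v ≤ s.eval v := fun h7 =>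
            h5 ((le_inf h6 h7).trans h'.2.2)
          exact key s hs (RegTree.alpha_inf h'.1).2 (by omega) Set.inter_subset_right h7
        · exact key r hr (RegTree.alpha_inf h'.1).1 (by omega) Set.inter_subset_left h6

theorem main_all (hpq : ¬ p.eval v ≤ q.eval v) (r : LTerm) : Main v (p := p) (q := q) r := by
  induction r with
  | var i => exact main_var v hpq i
  | sup r s hr hs => exact main_sup v hpq hr hs
  | inf r s hr hs => exact main_inf v hpq hr hs

theorem ep_nil : EP ([] : Word p q) [] := Or.inl ⟨[], rfl, by simp⟩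

theorem fails (hpq : ¬ p.eval v ≤ q.eval v) : VV v p q p ≠ VV v p q q := by
  intro h
  have l : ltE v (W v p q [] trivial) (Z v p q [] trivial) := Or.inl (List.suffix_refl _)
  have h1 := int_subset _ ((main_all v hpq p).gam [] trivial (pr v _ _ l) ⟨rfl, by
      intro α hα hm hl
      rcases RegTree.lemA (p := p) (q := q) ep_nil (W_up_cases v hm) hl with h6 | h6
      · exact Or.inr h6
      · exact Or.inl h6⟩
    ⟨List.mem_append_left _ (LTerm.self_mem_subs p), le_rfl, le_rfl⟩)
  have h2 := (main_all v hpq q).del [] trivial (pr v _ _ l) ⟨rfl, by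
      intro β hβ hm hl
      rcases RegTree.lemB (p := p) (q := q) ep_nil (Z_dn_cases v hm) hl with h6 | h6
      · exact Or.inr h6
      · exact Or.inl h6⟩
    ⟨List.mem_append_right _ (LTerm.self_mem_subs q), le_rfl, le_rfl⟩
  rw [h] at h1
  exact h2 h1

end Tree

universe u

/-- If the identity `s = t` holds in the lattice `Reg S` for all finite join-semilattices `S`,
then it holds in every lattice. -/
theorem main (s t : LTerm)
    (h : ∀ (S : Type) [SemilatticeSup S] [Finite S] (F : ℕ → Reg S),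
      @LTerm.eval (Reg S) (Reg.lattice S) F s = @LTerm.eval (Reg S) (Reg.lattice S) F t)
    (K : Type u) [Lattice K] (v : ℕ → K) : s.eval v = t.eval v := by
  by_contra hne
  by_cases h1 : s.eval v ≤ t.eval v
  · have h2 : ¬ t.eval v ≤ s.eval v := fun h2 => hne (le_antisymm h1 h2)
    exact fails v h2 (h (Sg v t s) (FF v t s)).symm
  · exact fails v h1 (h (Sg v s t) (FF v s t))

end Pool.Agent.R645.RegSemi
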