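import Mathlib

/-!
# MP_5c7113_al, Q1: the lattices `Reg(e)`, `e` a finite strict ordering, satisfy no nontrivial
lattice identity

For terms `p`, `q` with `p ≰ q` in some lattice we build a finite tree of labelled words and a
finite strict ordering on two copies of it in which `p ≤ q` fails.
-/

set_option autoImplicit false

namespace Pool.Agent.R645.RegTree

open Relation

/-- Lattice terms in the variables `var 0, var 1, …`. -/
inductive LTerm where
  | var (i : ℕ) : LTerm
  | sup (s t : LTerm) : LTerm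
  | inf (s t : LTerm) : LTerm

/-- The value of a lattice term in a lattice under an assignment of the variables. -/
def LTerm.eval {K : Type*} [Lattice K] (v : ℕ → K) : LTerm → K
  | .var i => v i
  | .sup s t => s.eval v ⊔ t.eval v
  | .inf s t => s.eval v ⊓ t.eval v

section Reg

variable {E : Type*}

/-- A relation, seen as a set of pairs, is transitive. -/
def IsTransitive (a : Set (E × E)) : Prop :=
  ∀ x y z, (x, y) ∈ a → (y, z) ∈ a → (x, z) ∈ a

/-- A strict ordering: an irreflexive transitive relation. -/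
def IsStrictOrdering (e : Set (E × E)) : Prop :=
  (∀ x, (x, x) ∉ e) ∧ IsTransitive e

/-- The transitive closure of a relation. -/
def cl (a : Set (E × E)) : Set (E × E) := {p | TransGen (fun x y => (x, y) ∈ a) p.1 p.2}

/-- `a ⊆ e` is open if `e ∖ a` is transitive. -/
def IsOpenIn (e a : Set (E × E)) : Prop := a ⊆ e ∧ IsTransitive (e \ a)

/-- The interior of `a`: the union of all open subsets of `a`. -/
def interior (e a : Set (E × E)) : Set (E × E) := ⋃₀ {u | IsOpenIn e u ∧ u ⊆ a}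

/-- `a` is regular closed if `a = cl (int a)`. -/
def IsRegularClosed (e a : Set (E × E)) : Prop := a ⊆ e ∧ a = cl (interior e a)

theorem cl_transitive (a : Set (E × E)) : IsTransitive (cl a) :=
  fun _ _ _ h h' => TransGen.trans h h'

theorem subset_cl (a : Set (E × E)) : a ⊆ cl a := fun _ h => TransGen.single h

theorem cl_subset {a b : Set (E × E)} (h : a ⊆ b) (hb : IsTransitive b) : cl a ⊆ b := by
  rintro ⟨x, y⟩ hxy
  change TransGen (fun x y => (x, y) ∈ a) x y at hxy
  show (x, y) ∈ b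
  induction hxy with
  | single h1 => exact h h1
  | tail _ h2 ih => exact hb _ _ _ ih (h h2)

theorem cl_mono {a b : Set (E × E)} (h : a ⊆ b) : cl a ⊆ cl b :=
  cl_subset (h.trans (subset_cl b)) (cl_transitive b)

theorem cl_eq_of_transitive {a : Set (E × E)} (h : IsTransitive a) : cl a = a :=
  (cl_subset subset_rfl h).antisymm (subset_cl a)

theorem interior_subset (e a : Set (E × E)) : interior e a ⊆ a := by
  rintro p ⟨u, ⟨-, hu⟩, hp⟩
  exact hu hp

/-- the explicit description of the interior -/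
theorem interior_eq {e : Set (E × E)} (he : IsTransitive e) (a : Set (E × E)) :
    interior e a = e \ cl (e \ a) := by
  ext p
  constructor
  · rintro ⟨u, ⟨⟨hue, hu⟩, hua⟩, hp⟩
    refine ⟨hue hp, fun h => ?_⟩
    have : cl (e \ a) ⊆ e \ u := cl_subset (fun q hq => ⟨hq.1, fun h' => hq.2 (hua h')⟩) hu
    exact (this h).2 hp
  · rintro ⟨hpe, hp⟩
    refine ⟨e \ cl (e \ a), ⟨⟨Set.sdiff_subset, ?_⟩, ?_⟩, hpe, hp⟩
    · have : e \ (e \ cl (e \ a)) = cl (e \ a) := by
        rw [Set.sdiff_sdiff_cancel_left]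
        exact cl_subset Set.sdiff_subset he
      rw [this]
      exact cl_transitive _
    · rintro q ⟨hq1, hq2⟩
      by_contra h
      exact hq2 (subset_cl _ ⟨hq1, h⟩)

theorem interior_mono {e a b : Set (E × E)} (h : a ⊆ b) : interior e a ⊆ interior e b := by
  rintro p ⟨u, ⟨hu, hua⟩, hp⟩
  exact ⟨u, ⟨hu, hua.trans h⟩, hp⟩

theorem interior_open {e : Set (E × E)} (he : IsTransitive e) (a : Set (E × E)) :
    IsOpenIn e (interior e a) := by
  rw [interior_eq he a]
  refine ⟨Set.sdiff_subset, ?_⟩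
  have : e \ (e \ cl (e \ a)) = cl (e \ a) := by
    rw [Set.sdiff_sdiff_cancel_left]
    exact cl_subset Set.sdiff_subset he
  rw [this]
  exact cl_transitive _

theorem open_subset_interior {e a u : Set (E × E)} (hu : IsOpenIn e u) (h : u ⊆ a) :
    u ⊆ interior e a := fun _ hp => ⟨u, ⟨hu, h⟩, hp⟩

/-- the closure of an open set is regular closed -/
theorem regularClosed_cl {e : Set (E × E)} (he : IsTransitive e) {u : Set (E × E)}
    (hu : IsOpenIn e u) : IsRegularClosed e (cl u) := by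
  have hcl : cl u ⊆ e := cl_subset hu.1 he
  refine ⟨hcl, Set.Subset.antisymm (cl_mono (open_subset_interior hu (subset_cl u))) ?_⟩
  exact cl_subset (interior_subset _ _) (cl_transitive u)

/-- The elements of the lattice `Reg(e)`. -/
def Reg (e : Set (E × E)) : Type _ := {a : Set (E × E) // IsRegularClosed e a}

variable (e : Set (E × E)) (he : IsTransitive e)
include he

/-- join -/
def Reg.sup (a b : Reg e) : Reg e := ⟨cl (a.1 ∪ b.1), by
  refine ⟨cl_subset (Set.union_subset a.2.1 b.2.1) he, Set.Subset.antisymm ?_ ?_⟩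
  · refine cl_subset (Set.union_subset ?_ ?_) (cl_transitive _)
    · intro p hp
      rw [a.2.2] at hp
      exact cl_mono (interior_mono (Set.subset_union_left.trans (subset_cl _))) hp
    · intro p hp
      rw [b.2.2] at hp
      exact cl_mono (interior_mono (Set.subset_union_right.trans (subset_cl _))) hp
  · exact cl_subset (interior_subset _ _) (cl_transitive _)⟩

/-- meet -/
def Reg.inf (a b : Reg e) : Reg e := ⟨cl (interior e (a.1 ∩ b.1)),
  regularClosed_cl he (interior_open he _)⟩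

/-- The lattice `Reg(e)` of regular closed subsets of `e`, ordered by inclusion. -/
@[instance_reducible]
def Reg.lattice : Lattice (Reg e) where
  le a b := a.1 ⊆ b.1
  le_refl a := subset_rfl
  le_trans a b c h h' := Set.Subset.trans h h'
  le_antisymm a b h h' := Subtype.ext (Set.Subset.antisymm h h')
  sup := Reg.sup e he
  le_sup_left a b := Set.subset_union_left.trans (subset_cl _)
  le_sup_right a b := Set.subset_union_right.trans (subset_cl _)
  sup_le a b c h h' := by
    refine cl_subset (Set.union_subset h h') ?_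
    show IsTransitive c.1
    rw [c.2.2]
    exact cl_transitive _
  inf := Reg.inf e he
  inf_le_left a b := by
    refine cl_subset ((interior_subset _ _).trans Set.inter_subset_left) ?_
    show IsTransitive a.1
    rw [a.2.2]
    exact cl_transitive _
  inf_le_right a b := by
    refine cl_subset ((interior_subset _ _).trans Set.inter_subset_right) ?_
    show IsTransitive b.1
    rw [b.2.2]
    exact cl_transitive _
  le_inf a b c h h' := by
    show a.1 ⊆ cl (interior e (b.1 ∩ c.1))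
    intro p hp
    rw [a.2.2] at hp
    exact cl_mono (interior_mono (Set.subset_inter h h')) hp

end Reg

/-! ### First and last steps of paths -/

section Steps

variable {E : Type*} {e : Set (E × E)}

theorem rt_le (he : IsTransitive e) {X : Set (E × E)} (hX : X ⊆ e) {x y : E}
    (h : ReflTransGen (fun x y => (x, y) ∈ X) x y) : x = y ∨ (x, y) ∈ e := by
  induction h with
  | refl => exact Or.inl rfl
  | tail _ h2 ih =>
    right
    rcases ih with rfl | ih
    · exact hX h2
    · exact he _ _ _ ih (hX h2)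

theorem firstStep (he : IsTransitive e) {X : Set (E × E)} (hX : X ⊆ e) {x y : E}
    (h : (x, y) ∈ cl X) : ∃ c, (x, c) ∈ X ∧ (c = y ∨ (c, y) ∈ e) := by
  obtain ⟨c, h1, h2⟩ := TransGen.head'_iff.1 (show TransGen (fun x y => (x, y) ∈ X) x y from h)
  exact ⟨c, h1, rt_le he hX h2⟩

theorem lastStep (he : IsTransitive e) {X : Set (E × E)} (hX : X ⊆ e) {x y : E}
    (h : (x, y) ∈ cl X) : ∃ c, (x = c ∨ (x, c) ∈ e) ∧ (c, y) ∈ X := by
  obtain ⟨c, h1, h2⟩ := TransGen.tail'_iff.1 (show TransGen (fun x y => (x, y) ∈ X) x y from h)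
  exact ⟨c, rt_le he hX h1, h2⟩

end Steps

/-! ### Terms -/

/-- the subterms of a term -/
def LTerm.subs : LTerm → List LTerm
  | .var i => [.var i]
  | .sup s t => .sup s t :: (s.subs ++ t.subs)
  | .inf s t => .inf s t :: (s.subs ++ t.subs)

/-- the size of a term -/
def LTerm.size : LTerm → ℕ
  | .var _ => 1
  | .sup s t => s.size + t.size + 1
  | .inf s t => s.size + t.size + 1

theorem LTerm.self_mem_subs (p : LTerm) : p ∈ p.subs := by
  cases p <;> simp [LTerm.subs]

theorem LTerm.subs_sup {a b : LTerm} : ∀ p : LTerm, LTerm.sup a b ∈ p.subs →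
    a ∈ p.subs ∧ b ∈ p.subs := by
  intro p
  induction p with
  | var i => intro h; simp [LTerm.subs] at h
  | sup s t ihs iht =>
    intro h
    simp only [LTerm.subs, List.mem_cons, List.mem_append] at h ⊢
    rcases h with h | h | h
    · injection h with h1 h2
      subst h1 h2
      exact ⟨Or.inr (Or.inl (LTerm.self_mem_subs _)), Or.inr (Or.inr (LTerm.self_mem_subs _))⟩
    · exact ⟨Or.inr (Or.inl (ihs h).1), Or.inr (Or.inl (ihs h).2)⟩
    · exact ⟨Or.inr (Or.inr (iht h).1), Or.inr (Or.inr (iht h).2)⟩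
  | inf s t ihs iht =>
    intro h
    simp only [LTerm.subs, List.mem_cons, List.mem_append] at h ⊢
    rcases h with h | h | h
    · cases h
    · exact ⟨Or.inr (Or.inl (ihs h).1), Or.inr (Or.inl (ihs h).2)⟩
    · exact ⟨Or.inr (Or.inr (iht h).1), Or.inr (Or.inr (iht h).2)⟩

theorem LTerm.subs_inf {a b : LTerm} : ∀ p : LTerm, LTerm.inf a b ∈ p.subs →
    a ∈ p.subs ∧ b ∈ p.subs := by
  intro p
  induction p with
  | var i => intro h; simp [LTerm.subs] at h
  | inf s t ihs iht =>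
    intro h
    simp only [LTerm.subs, List.mem_cons, List.mem_append] at h ⊢
    rcases h with h | h | h
    · injection h with h1 h2
      subst h1 h2
      exact ⟨Or.inr (Or.inl (LTerm.self_mem_subs _)), Or.inr (Or.inr (LTerm.self_mem_subs _))⟩
    · exact ⟨Or.inr (Or.inl (ihs h).1), Or.inr (Or.inl (ihs h).2)⟩
    · exact ⟨Or.inr (Or.inr (iht h).1), Or.inr (Or.inr (iht h).2)⟩
  | sup s t ihs iht =>
    intro h
    simp only [LTerm.subs, List.mem_cons, List.mem_append] at h ⊢
    rcases h with h | h | h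
    · cases h
    · exact ⟨Or.inr (Or.inl (ihs h).1), Or.inr (Or.inl (ihs h).2)⟩
    · exact ⟨Or.inr (Or.inr (iht h).1), Or.inr (Or.inr (iht h).2)⟩

/-! ### Words -/

section Tree

universe u

variable {K : Type u} [Lattice K] (v : ℕ → K) (p q : LTerm)

/-- the alphabet -/
abbrev Al : Type := {r : LTerm // r ∈ p.subs ++ q.subs}

/-- words; the newest letter comes first -/
abbrev Word : Type := List (Bool × Al p q)

variable {p q}

/-- the label of a word: `(true, r)` replaces the first entry by `r`, `(false, r)` the second -/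
def lab : Word p q → LTerm × LTerm
  | [] => (p, q)
  | (true, r) :: l => (r.1, (lab l).2)
  | (false, r) :: l => ((lab l).1, r.1)

/-- admissible words -/
def Valid : Word p q → Prop
  | [] => True
  | (true, r) :: l => Valid l ∧ r.1.size < (lab l).1.size ∧ ¬ r.1.eval v ≤ (lab l).2.eval v
  | (false, r) :: l => Valid l ∧ r.1.size < (lab l).2.size ∧ ¬ (lab l).1.eval v ≤ r.1.eval v

theorem valid_length (l : Word p q) : Valid v l →
    l.length + (lab l).1.size + (lab l).2.size ≤ p.size + q.size := by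
  induction l with
  | nil => intro _; simp [lab]
  | cons m l ih =>
    obtain ⟨b, r⟩ := m
    cases b
    · rintro ⟨h1, h2, -⟩
      have := ih h1
      simp only [lab, List.length_cons]
      omega
    · rintro ⟨h1, h2, -⟩
      have := ih h1
      simp only [lab, List.length_cons]
      omega

theorem valid_lab (hpq : ¬ p.eval v ≤ q.eval v) (l : Word p q) (hl : Valid v l) :
    ¬ (lab l).1.eval v ≤ (lab l).2.eval v := by
  cases l with
  | nil => exact hpq
  | cons m l =>
    obtain ⟨b, r⟩ := m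
    cases b
    · exact hl.2.2
    · exact hl.2.2

/-- `ρ` extends `π` by letters of kind `b` -/
def Ext (b : Bool) (π ρ : Word p q) : Prop := ∃ σ : Word p q, ρ = σ ++ π ∧ ∀ m ∈ σ, m.1 = b

/-- `ρ` extends `π`, with at least one letter of kind `b` -/
def SExt (b : Bool) (π ρ : Word p q) : Prop := ∃ σ : Word p q, ρ = σ ++ π ∧ ∃ m ∈ σ, m.1 = b

/-- node pairs -/
def EP (π ρ : Word p q) : Prop := Ext true π ρ ∨ Ext false ρ π

theorem lab_ext_true {π ρ : Word p q} (h : Ext true π ρ) : (lab ρ).2 = (lab π).2 := by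
  obtain ⟨σ, rfl, hσ⟩ := h
  induction σ with
  | nil => rfl
  | cons m σ ih =>
    obtain ⟨b, r⟩ := m
    have : b = true := hσ (b, r) List.mem_cons_self
    subst this
    exact ih (fun m hm => hσ m (List.mem_cons_of_mem _ hm))

theorem lab_ext_false {π ρ : Word p q} (h : Ext false π ρ) : (lab ρ).1 = (lab π).1 := by
  obtain ⟨σ, rfl, hσ⟩ := h
  induction σ with
  | nil => rfl
  | cons m σ ih =>
    obtain ⟨b, r⟩ := m
    have : b = false := hσ (b, r) List.mem_cons_self
    subst this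
    exact ih (fun m hm => hσ m (List.mem_cons_of_mem _ hm))

theorem ep_sep (hpq : ¬ p.eval v ≤ q.eval v) {π ρ : Word p q} (hπ : Valid v π) (hρ : Valid v ρ)
    (h : EP π ρ) : ¬ (lab ρ).1.eval v ≤ (lab π).2.eval v := by
  rcases h with h | h
  · rw [← lab_ext_true h]; exact valid_lab v hpq ρ hρ
  · rw [← lab_ext_false h]; exact valid_lab v hpq π hπ

/-- the three kinds of pairs are disjoint -/
theorem ep_not_b {π ρ : Word p q} (h : EP π ρ) (h' : SExt true ρ π) : False := by
  obtain ⟨σ, hσ, m, hm, hm'⟩ := h'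
  rcases h with ⟨τ, hτ, -⟩ | ⟨τ, hτ, hτ'⟩
  · rw [hτ] at hσ
    have := congrArg List.length hσ
    simp only [List.length_append] at this
    have h0 : σ.length = 0 := by omega
    rw [List.length_eq_zero_iff] at h0
    subst h0
    simp at hm
  · rw [hτ] at hσ
    have := List.append_cancel_right hσ
    subst this
    have := hτ' m hm
    rw [hm'] at this
    cases this

theorem ep_not_t {π ρ : Word p q} (h : EP π ρ) (h' : SExt false π ρ) : False := by
  obtain ⟨σ, hσ, m, hm, hm'⟩ := h'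
  rcases h with ⟨τ, hτ, hτ'⟩ | ⟨τ, hτ, -⟩
  · rw [hτ] at hσ
    have := List.append_cancel_right hσ
    subst this
    have := hτ' m hm
    rw [hm'] at this
    cases this
  · rw [hτ] at hσ
    have := congrArg List.length hσ
    simp only [List.length_append] at this
    have h0 : σ.length = 0 := by omega
    rw [List.length_eq_zero_iff] at h0
    subst h0
    simp at hm

theorem b_not_t {π ρ : Word p q} (h : SExt true ρ π) (h' : SExt false π ρ) : False := by
  obtain ⟨σ, hσ, m, hm, -⟩ := h'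
  obtain ⟨τ, hτ, -⟩ := h
  rw [hτ] at hσ
  have := congrArg List.length hσ
  simp only [List.length_append] at this
  have h0 : σ.length = 0 := by omega
  rw [List.length_eq_zero_iff] at h0
  subst h0
  simp at hm

theorem tri {π ρ : Word p q} (h : π <:+ ρ ∨ ρ <:+ π) :
    EP π ρ ∨ SExt true ρ π ∨ SExt false π ρ := by
  rcases h with ⟨σ, hσ⟩ | ⟨σ, hσ⟩
  · by_cases hh : ∀ m ∈ σ, m.1 = true
    · exact Or.inl (Or.inl ⟨σ, hσ.symm, hh⟩)
    · push Not at hh
      obtain ⟨m, hm, hm'⟩ := hh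
      exact Or.inr (Or.inr ⟨σ, hσ.symm, m, hm, by simpa using hm'⟩)
  · by_cases hh : ∀ m ∈ σ, m.1 = false
    · exact Or.inl (Or.inr ⟨σ, hσ.symm, hh⟩)
    · push Not at hh
      obtain ⟨m, hm, hm'⟩ := hh
      exact Or.inr (Or.inl ⟨σ, hσ.symm, m, hm, by simpa using hm'⟩)

theorem sext_trans {b : Bool} {π ρ τ : Word p q} (h : SExt b π ρ) (h' : ρ <:+ τ) :
    SExt b π τ := by
  obtain ⟨σ, rfl, m, hm, hm'⟩ := h
  obtain ⟨σ', rfl⟩ := h'
  exact ⟨σ' ++ σ, by rw [List.append_assoc], m, List.mem_append_right _ hm, hm'⟩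

theorem sext_trans' {b : Bool} {π ρ τ : Word p q} (h : SExt b ρ τ) (h' : π <:+ ρ) :
    SExt b π τ := by
  obtain ⟨σ, rfl, m, hm, hm'⟩ := h
  obtain ⟨σ', rfl⟩ := h'
  exact ⟨σ ++ σ', by rw [List.append_assoc], m, List.mem_append_left _ hm, hm'⟩

theorem lemA {π π' ρ : Word p q} (h : EP π ρ) (h1 : π <:+ π') (h2 : π' <:+ ρ ∨ ρ <:+ π') :
    EP π' ρ ∨ SExt true ρ π' := by
  rcases tri h2 with h3 | h3 | h3
  · exact Or.inl h3
  · exact Or.inr h3
  · exact (ep_not_t h (sext_trans' h3 h1)).elim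

theorem lemB {π ρ ρ' : Word p q} (h : EP π ρ) (h1 : ρ <:+ ρ') (h2 : π <:+ ρ' ∨ ρ' <:+ π) :
    EP π ρ' ∨ SExt false π ρ' := by
  rcases tri h2 with h3 | h3 | h3
  · exact Or.inl h3
  · exact (ep_not_b h (sext_trans' h3 h1)).elim
  · exact Or.inr h3

/-! ### The poset -/

/-- the strict order on two copies of the tree -/
def lt : Bool × Word p q → Bool × Word p q → Prop
  | (false, π), (false, π') => π <:+ π' ∧ π.length < π'.length
  | (true, ρ'), (true, ρ) => ρ <:+ ρ' ∧ ρ.length < ρ'.length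
  | (false, π), (true, ρ) => π <:+ ρ ∨ ρ <:+ π
  | (true, _), (false, _) => False

theorem lt_irrefl (x : Bool × Word p q) : ¬ lt x x := by
  obtain ⟨b, π⟩ := x
  cases b
  · rintro ⟨-, h⟩; exact absurd h (Nat.lt_irrefl _)
  · rintro ⟨-, h⟩; exact absurd h (Nat.lt_irrefl _)

theorem lt_trans' (x y z : Bool × Word p q) (h : lt x y) (h' : lt y z) : lt x z := by
  obtain ⟨b, π⟩ := x
  obtain ⟨c, ρ⟩ := y
  obtain ⟨d, τ⟩ := z
  cases b <;> cases c <;> cases d
  · exact ⟨h.1.trans h'.1, h.2.trans h'.2⟩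
  · rcases h' with h' | h'
    · exact Or.inl (h.1.trans h')
    · exact List.suffix_or_suffix_of_suffix h.1 h'
  · exact h'.elim
  · rcases h with h | h
    · exact List.suffix_or_suffix_of_suffix h h'.1
    · exact Or.inr (h'.1.trans h)
  · exact h.elim
  · exact h.elim
  · exact h'.elim
  · exact ⟨h'.1.trans h.1, h'.2.trans h.2⟩

variable (p q) in
/-- the underlying set -/
def El : Type := {x : Bool × Word p q // Valid v x.2}

theorem el_finite : Finite (El v p q) := by
  have hA : Finite (Al p q) := (List.finite_toSet (p.subs ++ q.subs)).to_subtype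
  have h1 : {l : Word p q | l.length ≤ p.size + q.size}.Finite := List.finite_length_le _ _
  have h2 : {x : Bool × Word p q | Valid v x.2}.Finite := by
    refine Set.Finite.subset (Set.Finite.prod (Set.finite_univ (α := Bool)) h1) ?_
    rintro ⟨b, l⟩ hl
    refine ⟨trivial, ?_⟩
    have := valid_length v l hl
    show l.length ≤ _
    omega
  exact h2.to_subtype

variable (p q) in
/-- the strict ordering -/
def ee : Set (El v p q × El v p q) := {x | lt x.1.1 x.2.1}

theorem ee_trans : IsTransitive (ee v p q) := fun x y z h h' => lt_trans' x.1 y.1 z.1 h h'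

theorem ee_strict : IsStrictOrdering (ee v p q) := ⟨fun x h => lt_irrefl x.1 h, ee_trans v⟩

/-- the terms that have to hold at a pair -/
def Gam (ρ : Word p q) (r : LTerm) : Prop :=
  r ∈ p.subs ++ q.subs ∧ r.size ≤ (lab ρ).1.size ∧ (lab ρ).1.eval v ≤ r.eval v

/-- the terms that must not hold at a pair -/
def Del (π : Word p q) (r : LTerm) : Prop :=
  r ∈ p.subs ++ q.subs ∧ r.size ≤ (lab π).2.size ∧ r.eval v ≤ (lab π).2.eval v

/-- the open sets of the variables -/
def uu (i : ℕ) : Bool × Word p q → Bool × Word p q → Prop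
  | (true, _), (true, _) => True
  | (false, π), (true, ρ) => SExt true ρ π ∨ (EP π ρ ∧ Gam v ρ (.var i))
  | (_, _), (false, _) => False

variable (p q) in
/-- the open set of the `i`-th variable -/
def U (i : ℕ) : Set (El v p q × El v p q) := {x | x ∈ ee v p q ∧ uu v i x.1.1 x.2.1}

theorem U_open (i : ℕ) : IsOpenIn (ee v p q) (U v p q i) := by
  refine ⟨fun x h => h.1, ?_⟩
  rintro x y z ⟨h1, h2⟩ ⟨h3, h4⟩
  refine ⟨ee_trans v _ _ _ h1 h3, ?_⟩
  rintro ⟨-, h5⟩
  obtain ⟨⟨b, π⟩, hx⟩ := x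
  obtain ⟨⟨c, π'⟩, hy⟩ := y
  obtain ⟨⟨d, ρ⟩, hz⟩ := z
  cases b <;> cases c <;> cases d
  · exact h5
  · -- W W Z
    have h1' : π <:+ π' := h1.1
    have h3' : π' <:+ ρ ∨ ρ <:+ π' := h3
    rcases h5 with h5 | ⟨h5, h6⟩
    · exact h4 ⟨h3, Or.inl (sext_trans h5 h1')⟩
    · rcases lemA h5 h1' h3' with h7 | h7
      · exact h4 ⟨h3, Or.inr ⟨h7, h6⟩⟩
      · exact h4 ⟨h3, Or.inl h7⟩
  · exact h3
  · exact h4 ⟨h3, trivial⟩
  · exact h1
  · exact h1
  · exact h3
  · exact h4 ⟨h3, trivial⟩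

variable (p q) in
/-- the values of the variables -/
def FF (i : ℕ) : Reg (ee v p q) := ⟨cl (U v p q i), regularClosed_cl (ee_trans v) (U_open v i)⟩

variable (p q) in
/-- the values of the terms -/
def VV (r : LTerm) : Reg (ee v p q) :=
  @LTerm.eval (Reg (ee v p q)) (Reg.lattice (ee v p q) (ee_trans v)) (FF v p q) r

theorem VV_sup (r s : LTerm) : (VV v p q (.sup r s)).1 = cl ((VV v p q r).1 ∪ (VV v p q s).1) :=
  rfl

theorem VV_inf (r s : LTerm) : (VV v p q (.inf r s)).1 =
    cl (interior (ee v p q) ((VV v p q r).1 ∩ (VV v p q s).1)) := rfl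

theorem VV_trans (r : LTerm) : IsTransitive (VV v p q r).1 := by
  rw [(VV v p q r).2.2]
  exact cl_transitive _

variable (p q) in
/-- lower elements -/
def W (π : Word p q) (hπ : Valid v π) : El v p q := ⟨(false, π), hπ⟩

variable (p q) in
/-- upper elements -/
def Z (ρ : Word p q) (hρ : Valid v ρ) : El v p q := ⟨(true, ρ), hρ⟩

theorem last_W {X : Set (El v p q × El v p q)} (hX : X ⊆ ee v p q)
    (hZ : ∀ ρ' hρ' ρ hρ, (Z v p q ρ' hρ', Z v p q ρ hρ) ∉ X) {π : Word p q} {hπ : Valid v π}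
    {ρ : Word p q} {hρ : Valid v ρ} (h : (W v p q π hπ, Z v p q ρ hρ) ∈ cl X) :
    ∃ (π' : Word p q) (hπ' : Valid v π'), π <:+ π' ∧ (W v p q π' hπ', Z v p q ρ hρ) ∈ X := by
  obtain ⟨⟨⟨b, π'⟩, hc⟩, h1, h2⟩ := lastStep (ee_trans v) hX h
  cases b
  · refine ⟨π', hc, ?_, h2⟩
    rcases h1 with h1 | h1
    · have : π = π' := congrArg (fun x : El v p q => x.1.2) h1
      rw [this]
    · exact h1.1
  · exact (hZ _ _ _ _ h2).elim

theorem first_Z {X : Set (El v p q × El v p q)} (hX : X ⊆ ee v p q)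
    (hW : ∀ π hπ π' hπ', (W v p q π hπ, W v p q π' hπ') ∉ X) {π : Word p q} {hπ : Valid v π}
    {y : El v p q} (h : (W v p q π hπ, y) ∈ cl X) :
    ∃ (ρ' : Word p q) (hρ' : Valid v ρ'), (W v p q π hπ, Z v p q ρ' hρ') ∈ X ∧
      y.1.1 = true ∧ y.1.2 <:+ ρ' := by
  obtain ⟨⟨⟨b, ρ'⟩, hc⟩, h1, h2⟩ := firstStep (ee_trans v) hX h
  cases b
  · exact (hW _ _ _ _ h1).elim
  · refine ⟨ρ', hc, h1, ?_⟩
    rcases h2 with h2 | h2
    · subst h2
      exact ⟨rfl, List.suffix_refl _⟩
    · obtain ⟨⟨b, ρ⟩, hy⟩ := y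
      cases b
      · exact h2.elim
      · exact ⟨rfl, h2.1⟩

theorem mem_int {a : Set (El v p q × El v p q)} {x : El v p q × El v p q} (hx : x ∈ ee v p q)
    (h : x ∉ cl (ee v p q \ a)) : x ∈ interior (ee v p q) a := by
  rw [interior_eq (ee_trans v)]
  exact ⟨hx, h⟩

/-- what is proved for every term -/
structure Main (r : LTerm) : Prop where
  zz : ∀ ρ' hρ' ρ hρ, (Z v p q ρ' hρ', Z v p q ρ hρ) ∈ ee v p q →
    (Z v p q ρ' hρ', Z v p q ρ hρ) ∈ interior (ee v p q) (VV v p q r).1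
  top : ∀ π hπ ρ hρ, SExt true ρ π →
    (W v p q π hπ, Z v p q ρ hρ) ∈ interior (ee v p q) (VV v p q r).1
  ww : ∀ π hπ π' hπ', (W v p q π hπ, W v p q π' hπ') ∉ (VV v p q r).1
  bot : ∀ π hπ ρ hρ, SExt false π ρ → (W v p q π hπ, Z v p q ρ hρ) ∉ (VV v p q r).1
  gam : ∀ π hπ ρ hρ, EP π ρ → Gam v ρ r →
    (W v p q π hπ, Z v p q ρ hρ) ∈ interior (ee v p q) (VV v p q r).1
  del : ∀ π hπ ρ hρ, EP π ρ → Del v π r → (W v p q π hπ, Z v p q ρ hρ) ∉ (VV v p q r).1

theorem sext_suffix {b : Bool} {π ρ : Word p q} (h : SExt b π ρ) : π <:+ ρ := by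
  obtain ⟨σ, rfl, -⟩ := h
  exact List.suffix_append _ _

theorem ep_comp {π ρ : Word p q} (h : EP π ρ) : π <:+ ρ ∨ ρ <:+ π := by
  rcases h with ⟨σ, rfl, -⟩ | ⟨σ, rfl, -⟩
  · exact Or.inl (List.suffix_append _ _)
  · exact Or.inr (List.suffix_append _ _)

theorem main_var (hpq : ¬ p.eval v ≤ q.eval v) (i : ℕ) : Main v (p := p) (q := q) (.var i) := by
  have hsub : U v p q i ⊆ interior (ee v p q) (VV v p q (.var i)).1 :=
    open_subset_interior (U_open v i) (subset_cl _)
  have hX : U v p q i ⊆ ee v p q := fun x h => h.1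
  have hW : ∀ π hπ π' hπ', (W v p q π hπ, W v p q π' hπ') ∉ U v p q i :=
    fun π hπ π' hπ' h => h.2
  refine ⟨?_, ?_, ?_, ?_, ?_, ?_⟩
  · intro ρ' hρ' ρ hρ h
    exact hsub ⟨h, trivial⟩
  · intro π hπ ρ hρ h
    exact hsub ⟨Or.inr (sext_suffix h), Or.inl h⟩
  · intro π hπ π' hπ' h
    obtain ⟨ρ', hρ', h1, h2, h3⟩ := first_Z v hX hW h
    exact absurd h2 (by simp [W])
  · intro π hπ ρ hρ h h'
    obtain ⟨ρ', hρ', h1, h2, h3⟩ := first_Z v hX hW h'
    have h4 : SExt false π ρ' := sext_trans h h3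
    rcases h1.2 with h5 | ⟨h5, -⟩
    · exact b_not_t h5 h4
    · exact ep_not_t h5 h4
  · intro π hπ ρ hρ h h'
    exact hsub ⟨ep_comp h, Or.inr ⟨h, h'⟩⟩
  · intro π hπ ρ hρ h h' h''
    obtain ⟨ρ', hρ', h1, h2, h3⟩ := first_Z v hX hW h''
    have h0 : π <:+ ρ' ∨ ρ' <:+ π := h1.1
    rcases lemB h h3 h0 with h4 | h4
    · rcases h1.2 with h5 | ⟨h5, h6⟩
      · exact ep_not_b h4 h5
      · exact ep_sep v hpq hπ hρ' h4 (h6.2.2.trans h'.2.2)
    · rcases h1.2 with h5 | ⟨h5, -⟩
      · exact b_not_t h5 h4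
      · exact ep_not_t h5 h4

theorem int_sub {r : LTerm} : interior (ee v p q) (VV v p q r).1 ⊆ (VV v p q r).1 :=
  interior_subset _ _

theorem alpha_sup {a b : LTerm} (h : LTerm.sup a b ∈ p.subs ++ q.subs) :
    a ∈ p.subs ++ q.subs ∧ b ∈ p.subs ++ q.subs := by
  rw [List.mem_append] at h
  rcases h with h | h
  · exact ⟨List.mem_append_left _ (LTerm.subs_sup p h).1, List.mem_append_left _ (LTerm.subs_sup p h).2⟩
  · exact ⟨List.mem_append_right _ (LTerm.subs_sup q h).1, List.mem_append_right _ (LTerm.subs_sup q h).2⟩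

theorem alpha_inf {a b : LTerm} (h : LTerm.inf a b ∈ p.subs ++ q.subs) :
    a ∈ p.subs ++ q.subs ∧ b ∈ p.subs ++ q.subs := by
  rw [List.mem_append] at h
  rcases h with h | h
  · exact ⟨List.mem_append_left _ (LTerm.subs_inf p h).1, List.mem_append_left _ (LTerm.subs_inf p h).2⟩
  · exact ⟨List.mem_append_right _ (LTerm.subs_inf q h).1, List.mem_append_right _ (LTerm.subs_inf q h).2⟩

/-- the new upper element -/
theorem child_up {π ρ : Word p q} (hπ : Valid v π) (hρ : Valid v ρ) (h : EP π ρ) {r : LTerm}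
    (hr : r ∈ p.subs ++ q.subs) (h1 : r.size < (lab ρ).1.size)
    (h2 : ¬ r.eval v ≤ (lab π).2.eval v) :
    ∃ (τ : Word p q), Valid v τ ∧ EP π τ ∧ ρ <:+ τ ∧ ρ.length < τ.length ∧ Gam v τ r := by
  rcases h with h | h
  · refine ⟨(true, ⟨r, hr⟩) :: ρ, ⟨hρ, h1, ?_⟩, Or.inl ?_, List.suffix_cons _ _, by simp,
      hr, le_rfl, le_rfl⟩
    · rw [lab_ext_true h]; exact h2
    · obtain ⟨σ, rfl, hσ⟩ := h
      refine ⟨(true, ⟨r, hr⟩) :: σ, rfl, ?_⟩
      intro m hm
      rcases List.mem_cons.1 hm with rfl | hm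
      · rfl
      · exact hσ m hm
  · refine ⟨(true, ⟨r, hr⟩) :: π, ⟨hπ, ?_, h2⟩, Or.inl ⟨[(true, ⟨r, hr⟩)], rfl, ?_⟩, ?_, ?_,
      hr, le_rfl, le_rfl⟩
    · rw [lab_ext_false h]; exact h1
    · intro m hm
      rw [List.mem_singleton] at hm
      rw [hm]
    · obtain ⟨σ, rfl, hσ⟩ := h
      exact ⟨(true, ⟨r, hr⟩) :: σ, rfl⟩
    · obtain ⟨σ, rfl, hσ⟩ := h
      simp only [List.length_cons, List.length_append]
      omega

/-- the new lower element -/
theorem child_down {π ρ : Word p q} (hπ : Valid v π) (hρ : Valid v ρ) (h : EP π ρ) {r : LTerm}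
    (hr : r ∈ p.subs ++ q.subs) (h1 : r.size < (lab π).2.size)
    (h2 : ¬ (lab ρ).1.eval v ≤ r.eval v) :
    ∃ (τ : Word p q), Valid v τ ∧ EP τ ρ ∧ π <:+ τ ∧ π.length < τ.length ∧ Del v τ r := by
  rcases h with h | h
  · refine ⟨(false, ⟨r, hr⟩) :: ρ, ⟨hρ, ?_, h2⟩, Or.inr ⟨[(false, ⟨r, hr⟩)], rfl, ?_⟩, ?_, ?_,
      hr, le_rfl, le_rfl⟩
    · rw [lab_ext_true h]; exact h1
    · intro m hm
      rw [List.mem_singleton] at hm
      rw [hm]
    · obtain ⟨σ, rfl, hσ⟩ := h
      exact ⟨(false, ⟨r, hr⟩) :: σ, rfl⟩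
    · obtain ⟨σ, rfl, hσ⟩ := h
      simp only [List.length_cons, List.length_append]
      omega
  · refine ⟨(false, ⟨r, hr⟩) :: π, ⟨hπ, h1, ?_⟩, Or.inr ?_, List.suffix_cons _ _, by simp,
      hr, le_rfl, le_rfl⟩
    · rw [lab_ext_false h]; exact h2
    · obtain ⟨σ, rfl, hσ⟩ := h
      refine ⟨(false, ⟨r, hr⟩) :: σ, rfl, ?_⟩
      intro m hm
      rcases List.mem_cons.1 hm with rfl | hm
      · rfl
      · exact hσ m hm

theorem main_sup (hpq : ¬ p.eval v ≤ q.eval v) {r s : LTerm} (hr : Main v (p := p) (q := q) r)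
    (hs : Main v (p := p) (q := q) s) : Main v (p := p) (q := q) (.sup r s) := by
  have e1 : (VV v p q r).1 ⊆ (VV v p q (.sup r s)).1 := by
    rw [VV_sup]; exact Set.subset_union_left.trans (subset_cl _)
  have e2 : (VV v p q s).1 ⊆ (VV v p q (.sup r s)).1 := by
    rw [VV_sup]; exact Set.subset_union_right.trans (subset_cl _)
  have hzz := fun ρ' hρ' ρ hρ h => interior_mono (e := ee v p q) e1 (hr.zz ρ' hρ' ρ hρ h)
  have htop := fun π hπ ρ hρ h => interior_mono (e := ee v p q) e1 (hr.top π hπ ρ hρ h)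
  have hX : (VV v p q r).1 ∪ (VV v p q s).1 ⊆ ee v p q :=
    Set.union_subset (VV v p q r).2.1 (VV v p q s).2.1
  have hW : ∀ π hπ π' hπ', (W v p q π hπ, W v p q π' hπ') ∉ (VV v p q r).1 ∪ (VV v p q s).1 := by
    rintro π hπ π' hπ' (h | h)
    · exact hr.ww _ _ _ _ h
    · exact hs.ww _ _ _ _ h
  refine ⟨hzz, htop, ?_, ?_, ?_, ?_⟩
  · intro π hπ π' hπ' h
    obtain ⟨ρ', hρ', h1, h2, h3⟩ := first_Z v hX hW h
    exact absurd h2 (by simp [W])
  · intro π hπ ρ hρ h h'
    obtain ⟨ρ', hρ', h1, h2, h3⟩ := first_Z v hX hW h'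
    have h4 : SExt false π ρ' := sext_trans h h3
    rcases h1 with h1 | h1
    · exact hr.bot _ _ _ _ h4 h1
    · exact hs.bot _ _ _ _ h4 h1
  · intro π hπ ρ hρ h h'
    refine mem_int v (ep_comp h) (fun hc => ?_)
    obtain ⟨π', hπ', h1, h2, h3⟩ := last_W v Set.sdiff_subset
      (fun ρ' hρ' ρ hρ hh => hh.2 (int_sub v (hzz ρ' hρ' ρ hρ hh.1))) hc
    apply h3
    have h2' : π' <:+ ρ ∨ ρ <:+ π' := h2
    rcases lemA h h1 h2' with h4 | h4
    · have h5 : ¬ (lab ρ).1.eval v ≤ (lab π').2.eval v := ep_sep v hpq hπ' hρ h4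
      have key : ∀ t : LTerm, Main v (p := p) (q := q) t → t ∈ p.subs ++ q.subs →
          t.size < (lab ρ).1.size → (VV v p q t).1 ⊆ (VV v p q (.sup r s)).1 →
          ¬ t.eval v ≤ (lab π').2.eval v →
          (W v p q π' hπ', Z v p q ρ hρ) ∈ (VV v p q (.sup r s)).1 := by
        intro t ht hta hts hte htv
        obtain ⟨τ, hτ, k1, k2, k3, k4⟩ := child_up v hπ' hρ h4 hta hts htv
        have m1 := hte (int_sub v (ht.gam π' hπ' τ hτ k1 k4))
        have m2 := int_sub v (hzz τ hτ ρ hρ ⟨k2, k3⟩)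
        exact VV_trans v _ _ _ _ m1 m2
      have hsz := h'.2.1
      simp only [LTerm.size] at hsz
      by_cases h6 : r.eval v ≤ (lab π').2.eval v
      · have h7 : ¬ s.eval v ≤ (lab π').2.eval v := fun h7 =>
          h5 (h'.2.2.trans (sup_le h6 h7))
        exact key s hs (alpha_sup h'.1).2 (by omega) e2 h7
      · exact key r hr (alpha_sup h'.1).1 (by omega) e1 h6
    · exact int_sub v (htop _ _ _ _ h4)
  · intro π hπ ρ hρ h h' h''
    obtain ⟨ρ', hρ', h1, h2, h3⟩ := first_Z v hX hW h''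
    have hsz := h'.2.1
    simp only [LTerm.size] at hsz
    have h0 : π <:+ ρ' ∨ ρ' <:+ π := hX h1
    have hle : r.eval v ⊔ s.eval v ≤ (lab π).2.eval v := h'.2.2
    rcases lemB h h3 h0 with h4 | h4
    · rcases h1 with h1 | h1
      · exact hr.del _ _ _ _ h4 ⟨(alpha_sup h'.1).1, by omega, le_sup_left.trans hle⟩ h1
      · exact hs.del _ _ _ _ h4 ⟨(alpha_sup h'.1).2, by omega, le_sup_right.trans hle⟩ h1
    · rcases h1 with h1 | h1
      · exact hr.bot _ _ _ _ h4 h1
      · exact hs.bot _ _ _ _ h4 h1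

theorem main_inf (hpq : ¬ p.eval v ≤ q.eval v) {r s : LTerm} (hr : Main v (p := p) (q := q) r)
    (hs : Main v (p := p) (q := q) s) : Main v (p := p) (q := q) (.inf r s) := by
  set X : Set (El v p q × El v p q) := (VV v p q r).1 ∩ (VV v p q s).1 with hXdef
  have hXe : X ⊆ ee v p q := Set.inter_subset_left.trans (VV v p q r).2.1
  have hV : (VV v p q (.inf r s)).1 = cl (interior (ee v p q) X) := rfl
  have eint : interior (ee v p q) X ⊆ interior (ee v p q) (VV v p q (.inf r s)).1 := by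
    rw [hV]
    exact open_subset_interior (interior_open (ee_trans v) X) (subset_cl _)
  have e1 : (VV v p q (.inf r s)).1 ⊆ (VV v p q r).1 := by
    rw [hV]
    exact cl_subset ((interior_subset _ _).trans Set.inter_subset_left) (VV_trans v r)
  have hzzX : ∀ ρ' hρ' ρ hρ, (Z v p q ρ' hρ', Z v p q ρ hρ) ∈ ee v p q →
      (Z v p q ρ' hρ', Z v p q ρ hρ) ∈ X := fun ρ' hρ' ρ hρ h =>
    ⟨int_sub v (hr.zz ρ' hρ' ρ hρ h), int_sub v (hs.zz ρ' hρ' ρ hρ h)⟩
  have htopX : ∀ π hπ ρ hρ, SExt true ρ π → (W v p q π hπ, Z v p q ρ hρ) ∈ X :=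
    fun π hπ ρ hρ h => ⟨int_sub v (hr.top π hπ ρ hρ h), int_sub v (hs.top π hπ ρ hρ h)⟩
  have hmiss : ∀ ρ' hρ' ρ hρ, (Z v p q ρ' hρ', Z v p q ρ hρ) ∉ ee v p q \ X :=
    fun ρ' hρ' ρ hρ hh => hh.2 (hzzX ρ' hρ' ρ hρ hh.1)
  have hwwX : ∀ π hπ π' hπ', (W v p q π hπ, W v p q π' hπ') ∉ interior (ee v p q) X :=
    fun π hπ π' hπ' h => hr.ww _ _ _ _ (interior_subset _ _ h).1
  refine ⟨?_, ?_, ?_, ?_, ?_, ?_⟩
  · intro ρ' hρ' ρ hρ h
    refine eint (mem_int v h (fun hc => ?_))
    obtain ⟨⟨⟨b, π'⟩, hy⟩, h1, h2⟩ := lastStep (ee_trans v) Set.sdiff_subset hc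
    cases b
    · rcases h1 with h1 | h1
      · have : true = false := congrArg (fun x : El v p q => x.1.1) h1
        cases this
      · exact h1
    · exact hmiss _ _ _ _ h2
  · intro π hπ ρ hρ h
    refine eint (mem_int v (Or.inr (sext_suffix h)) (fun hc => ?_))
    obtain ⟨π', hπ', h1, h2⟩ := last_W v Set.sdiff_subset hmiss hc
    exact h2.2 (htopX _ _ _ _ (sext_trans h h1))
  · intro π hπ π' hπ' h
    exact hr.ww _ _ _ _ (e1 h)
  · intro π hπ ρ hρ h h'
    exact hr.bot _ _ _ _ h (e1 h')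
  · intro π hπ ρ hρ h h'
    refine eint (mem_int v (ep_comp h) (fun hc => ?_))
    obtain ⟨π', hπ', h1, h2⟩ := last_W v Set.sdiff_subset hmiss hc
    have hsz := h'.2.1
    simp only [LTerm.size] at hsz
    have h2' : π' <:+ ρ ∨ ρ <:+ π' := h2.1
    have hle : (lab ρ).1.eval v ≤ r.eval v ⊓ s.eval v := h'.2.2
    rcases lemA h h1 h2' with h4 | h4
    · exact h2.2 ⟨int_sub v (hr.gam _ _ _ _ h4 ⟨(alpha_inf h'.1).1, by omega, hle.trans inf_le_left⟩),
        int_sub v (hs.gam _ _ _ _ h4 ⟨(alpha_inf h'.1).2, by omega, hle.trans inf_le_right⟩)⟩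
    · exact h2.2 (htopX _ _ _ _ h4)
  · intro π hπ ρ hρ h h' h''
    rw [hV] at h''
    obtain ⟨ρ', hρ', h1, h2, h3⟩ := first_Z v ((interior_subset _ _).trans hXe) hwwX h''
    have hsz := h'.2.1
    simp only [LTerm.size] at hsz
    have h0 : π <:+ ρ' ∨ ρ' <:+ π := hXe (interior_subset _ _ h1)
    rcases lemB h h3 h0 with h4 | h4
    · have h5 : ¬ (lab ρ').1.eval v ≤ (lab π).2.eval v := ep_sep v hpq hπ hρ' h4
      rw [interior_eq (ee_trans v)] at h1
      apply h1.2
      have key : ∀ t : LTerm, Main v (p := p) (q := q) t → t ∈ p.subs ++ q.subs →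
          t.size < (lab π).2.size → X ⊆ (VV v p q t).1 →
          ¬ (lab ρ').1.eval v ≤ t.eval v →
          (W v p q π hπ, Z v p q ρ' hρ') ∈ cl (ee v p q \ X) := by
        intro t ht hta hts hte htv
        obtain ⟨τ, hτ, k1, k2, k3, k4⟩ := child_down v hπ hρ' h4 hta hts htv
        have m1 : (W v p q π hπ, W v p q τ hτ) ∈ ee v p q \ X :=
          ⟨⟨k2, k3⟩, fun hh => ht.ww _ _ _ _ (hte hh)⟩
        have m2 : (W v p q τ hτ, Z v p q ρ' hρ') ∈ ee v p q \ X :=
          ⟨ep_comp k1, fun hh => ht.del _ _ _ _ k1 k4 (hte hh)⟩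
        exact cl_transitive _ _ _ _ (subset_cl _ m1) (subset_cl _ m2)
      by_cases h6 : (lab ρ').1.eval v ≤ r.eval v
      · have h7 : ¬ (lab ρ').1.eval v ≤ s.eval v := fun h7 =>
          h5 ((le_inf h6 h7).trans h'.2.2)
        exact key s hs (alpha_inf h'.1).2 (by omega) Set.inter_subset_right h7
      · exact key r hr (alpha_inf h'.1).1 (by omega) Set.inter_subset_left h6
    · exact hr.bot _ _ _ _ h4 (interior_subset _ _ h1).1

theorem main_all (hpq : ¬ p.eval v ≤ q.eval v) (r : LTerm) : Main v (p := p) (q := q) r := by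
  induction r with
  | var i => exact main_var v hpq i
  | sup r s hr hs => exact main_sup v hpq hr hs
  | inf r s hr hs => exact main_inf v hpq hr hs

theorem fails (hpq : ¬ p.eval v ≤ q.eval v) : VV v p q p ≠ VV v p q q := by
  intro h
  have h1 := int_sub v ((main_all v hpq p).gam [] trivial [] trivial
    (Or.inl ⟨[], rfl, by simp⟩)
    ⟨List.mem_append_left _ (LTerm.self_mem_subs p), le_rfl, le_rfl⟩)
  have h2 := (main_all v hpq q).del [] trivial [] trivial
    (Or.inl ⟨[], rfl, by simp⟩)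
    ⟨List.mem_append_right _ (LTerm.self_mem_subs q), le_rfl, le_rfl⟩
  rw [h] at h1
  exact h2 h1

end Tree

universe u

/-- If the identity `s = t` holds in the lattice `Reg(e)` for all finite strict orderings `e`,
then it holds in every lattice. -/
theorem main (s t : LTerm)
    (h : ∀ (E : Type) [Finite E] (e : Set (E × E)) (he : IsStrictOrdering e) (F : ℕ → Reg e),
      @LTerm.eval (Reg e) (Reg.lattice e he.2) F s = @LTerm.eval (Reg e) (Reg.lattice e he.2) F t)
    (K : Type u) [Lattice K] (v : ℕ → K) : s.eval v = t.eval v := by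
  by_contra hne
  by_cases h1 : s.eval v ≤ t.eval v
  · have h2 : ¬ t.eval v ≤ s.eval v := fun h2 => hne (le_antisymm h1 h2)
    have := el_finite (p := t) (q := s) v
    exact fails v h2 (h (El v t s) (ee v t s) (ee_strict v) (FF v t s)).symm
  · have := el_finite (p := s) (q := t) v
    exact fails v h1 (h (El v s t) (ee v s t) (ee_strict v) (FF v s t))

end Pool.Agent.R645.RegTree
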